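import Pool.Agent.Lib.MP_cb4cf2_lc.Defs

/-! The class AM and the infinitely often version of the second level of the linear exponential
hierarchy with advice, relative to an oracle. -/

namespace Pool.Agent.Lib.MP_cb4cf2_lc

/-- The languages with an Arthur-Merlin protocol relative to `A`. -/
def AM (A : Str → Bool) : Set (Set Str) := {L | ∃ (M : OM) (p : Polynomial ℕ), AMvia M p A L}

/-- The languages that agree at infinitely many input lengths `n` with a predicate
`∃ y, ∀ z, M accepts`, where `y, z` have length `2 ^ (c n)`, so that `M` runs in time `2 ^ O(n)`,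
and `M` also reads `n / 8` bits of advice, appended to the input. -/
def ioSigma2E (A : Str → Bool) : Set (Set Str) :=
  {L | ∃ (M : OM) (c : ℕ), ∃ᶠ n in Filter.atTop, ∃ a : Fin (n / 8) → Bool, ∀ x : Str,
    x.length = n → (x ∈ L ↔ ∃ y : Fin (2 ^ (c * n)) → Bool, ∀ z : Fin (2 ^ (c * n)) → Bool,
      M.Acc A (x ++ List.ofFn a) (List.ofFn y) (List.ofFn z))}

end Pool.Agent.Lib.MP_cb4cf2_lc
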