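import Mathlib

/-! A total function on tables with no small disjunction of narrow conjunctive normal forms.

Blocks `B`, rules `Ru` with a head and two parents, slots `ι → Bool`.  A table has a presence bit
for each pair (block, slot) and a share for each rule, parent position and slot. -/

namespace Pool.Agent.Lib.MP_cb4cf2_lc

open Finset Classical

set_option linter.unusedSectionVars false

abbrev Cell (B Ru ι : Type) := (B × (ι → Bool)) ⊕ (Ru × Bool × (ι → Bool) × ι)

abbrev Om (B Ru ι : Type) := (B → ι → Bool) × (Ru → ι → Bool)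

variable {B Ru ι : Type} (head : Ru → B) (par : Ru → Bool → B)

/-- The share written in the table for a rule, a parent position and a slot. -/
def shr (t : Cell B Ru ι → Bool) (ρ : Ru) (b : Bool) (μ : ι → Bool) : ι → Bool :=
  fun i => t (.inr (ρ, b, μ, i))

/-- Both parents of a rule are present but the slot of the head named by the shares is not. -/
def Viol (t : Cell B Ru ι → Bool) : Prop := ∃ ρ μ ν, t (.inl (par ρ false, μ)) = true ∧
  t (.inl (par ρ true, ν)) = true ∧ t (.inl (head ρ, shr t ρ false μ + shr t ρ true ν)) = false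

/-- The total function. -/
def Fn (t : Cell B Ru ι → Bool) : Prop := Viol head par t ∨ ∀ j, ∃ μ, t (.inl (j, μ)) = true

def Cl (A : Set B) : Prop := ∀ ρ, par ρ false ∈ A → par ρ true ∈ A → head ρ ∈ A

theorem cl_of_not_viol {t : Cell B Ru ι → Bool} (h : ¬Viol head par t) :
    Cl head par {j | ∃ μ, t (.inl (j, μ)) = true} := by
  rintro ρ ⟨μ, h1⟩ ⟨ν, h2⟩
  by_contra h3
  exact h ⟨ρ, μ, ν, h1, h2, Bool.eq_false_iff.2 fun h4 => h3 ⟨_, h4⟩⟩

def own : Cell B Ru ι → B × (ι → Bool)
  | .inl p => p
  | .inr q => (par q.1 q.2.1, q.2.2.1)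

def val (ω : Om B Ru ι) : Cell B Ru ι → Bool
  | .inl _ => true
  | .inr q => (bif q.2.1 then ω.1 (head q.1) - ω.2 q.1 else ω.2 q.1) q.2.2.2

/-- The table of the hard distribution restricted to the blocks in `A`. -/
noncomputable def view (A : Set B) (ω : Om B Ru ι) (c : Cell B Ru ι) : Bool :=
  if (own par c).1 ∈ A ∧ (own par c).2 = ω.1 (own par c).1 then val head ω c else false

variable {head par}

theorem view_inl {A : Set B} {ω : Om B Ru ι} {j : B} {μ : ι → Bool} :
    view head par A ω (.inl (j, μ)) = true ↔ j ∈ A ∧ μ = ω.1 j := by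
  by_cases h : j ∈ A ∧ μ = ω.1 j
  · exact iff_of_true (if_pos h) h
  · exact iff_of_false (fun e => Bool.false_ne_true ((if_neg h).symm.trans e)) h

theorem shr_view {A : Set B} {ω : Om B Ru ι} {ρ : Ru} {b : Bool} (h : par ρ b ∈ A) :
    shr (view head par A ω) ρ b (ω.1 (par ρ b)) =
      bif b then ω.1 (head ρ) - ω.2 ρ else ω.2 ρ := by
  funext i
  simp [shr, view, own, val, h]

theorem not_fn_view {A : Set B} (hA : Cl head par A) {v : B} (hv : v ∉ A) (ω : Om B Ru ι) :
    ¬Fn head par (view head par A ω) := by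
  rintro (⟨ρ, μ, ν, h1, h2, h3⟩ | h)
  · obtain ⟨a1, rfl⟩ := view_inl.1 h1
    obtain ⟨a2, rfl⟩ := view_inl.1 h2
    rw [shr_view a1, shr_view a2, Bool.eq_false_iff] at h3
    exact h3 (view_inl.2 ⟨hA ρ a1 a2, by simp⟩)
  · obtain ⟨μ, h⟩ := h v
    exact hv (view_inl.1 h).1

theorem fn_view (ω : Om B Ru ι) : Fn head par (view head par Set.univ ω) :=
  Or.inr fun j => ⟨ω.1 j, view_inl.2 ⟨trivial, rfl⟩⟩

theorem view_lam {A : Set B} {ω ω' : Om B Ru ι} (h : view head par A ω = view head par A ω')
    {v : B} (hv : v ∈ A) : ω.1 v = ω'.1 v :=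
  (view_inl.1 ((congrFun h _).symm.trans (view_inl.2 ⟨hv, rfl⟩))).2

theorem view_mono {A A' : Set B} (hA : A ⊆ A') {ω ω' : Om B Ru ι}
    (h : view head par A' ω = view head par A' ω') : view head par A ω = view head par A ω' := by
  funext c
  have h1 := congrFun h c
  by_cases h2 : (own par c).1 ∈ A
  · simpa [view, h2, hA h2] using h1
  · simp [view, h2]

theorem view_diff {A : Set B} {ω : Om B Ru ι} {c : Cell B Ru ι}
    (h : view head par Set.univ ω c ≠ view head par A ω c) :
    (own par c).1 ∉ A ∧ ω.1 (own par c).1 = (own par c).2 := by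
  by_cases h1 : (own par c).2 = ω.1 (own par c).1
  · exact ⟨fun h2 => h (by simp [view, h2]), h1.symm⟩
  · exact absurd (by simp [view, h1]) h

variable (head par) in
/-- The shift of the slot of `v` by `g` that is invisible on `A`. -/
noncomputable def shift (A : Set B) (v : B) (g : ι → Bool) : Om B Ru ι :=
  (Pi.single v g, fun ρ => if head ρ = v ∧ par ρ true ∈ A then g else 0)

theorem view_shift {A : Set B} (hA : Cl head par A) {v : B} (hv : v ∉ A) (g : ι → Bool)
    (ω : Om B Ru ι) : view head par A (ω + shift head par A v g) = view head par A ω := by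
  funext c
  by_cases h : (own par c).1 ∈ A
  · have h1 : (ω + shift head par A v g).1 (own par c).1 = ω.1 (own par c).1 := by
      have : (own par c).1 ≠ v := fun e => hv (e ▸ h)
      simp [shift, Pi.single_eq_of_ne this]
    have h2 : val head (ω + shift head par A v g) c = val head ω c := by
      rcases c with p | ⟨ρ, _ | _, μ, i⟩
      · rfl
      · have : ¬(head ρ = v ∧ par ρ true ∈ A) := fun e => hv (e.1 ▸ hA ρ h e.2)
        simp [val, shift, this]
      · have h3 : par ρ true ∈ A := h
        by_cases e : head ρ = v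
        · simp [val, shift, e, h3]
        · simp [val, shift, e]
    simp only [view, h1, h2]
  · simp [view, h]

variable [Fintype B] [Fintype Ru] [Fintype ι]

variable (head par) in
/-- The event is determined by the view on `A`. -/
def Meas (A : Set B) (E : Finset (Om B Ru ι)) : Prop :=
  ∀ ω ω', view head par A ω = view head par A ω' → ω ∈ E → ω' ∈ E

theorem card_guess {A : Set B} (hA : Cl head par A) {v : B} (hv : v ∉ A) (μ : ι → Bool)
    {E : Finset (Om B Ru ι)} (hE : Meas head par A E) :
    #(E.filter fun ω => ω.1 v = μ) * Fintype.card (ι → Bool) ≤ #E := by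
  rw [← card_univ, ← card_product]
  refine card_le_card_of_injOn (fun p => p.1 + shift head par A v p.2) (fun p hp => ?_) ?_
  · simp only [coe_product, coe_filter, Set.mem_prod, Set.mem_ofPred_eq] at hp
    exact hE _ _ (view_shift hA hv p.2 p.1).symm hp.1.1
  · rintro ⟨ω, g⟩ hp ⟨ω', g'⟩ hp' e
    simp only [coe_product, coe_filter, Set.mem_prod, Set.mem_ofPred_eq] at hp hp' e
    have h1 := congrFun (congrArg Prod.fst e) v
    simp only [shift, Prod.fst_add, Pi.add_apply, Pi.single_eq_same, hp.1.2, hp'.1.2] at h1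
    obtain rfl : g = g' := add_left_cancel h1
    rw [add_right_cancel e]

variable (head par) in
/-- A function on blocks that is additive along the rules. -/
def Lin (T : B → Bool) : Prop := ∀ ρ, T (head ρ) = T (par ρ false) + T (par ρ true)

/-- The blocks on which all functions of the family agree. -/
def agr (S : Finset (B → Bool)) : Set B := {x | ∀ T ∈ S, ∀ T' ∈ S, T x = T' x}

theorem cl_agr {S : Finset (B → Bool)} (h : ∀ T ∈ S, Lin head par T) : Cl head par (agr S) :=
  fun ρ h1 h2 T hT T' hT' => by rw [h T hT, h T' hT', h1 T hT T' hT', h2 T hT T' hT']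

theorem exists_half (S : Finset (B → Bool)) (v : B) {m : ℕ} (h : 2 ^ (m + 1) ≤ #S) :
    ∃ S' ⊆ S, 2 ^ m ≤ #S' ∧ v ∈ agr S' := by
  have h1 := card_filter_add_card_filter_not (s := S) fun T => T v = true
  by_cases h2 : 2 ^ m ≤ #(S.filter fun T => T v = true)
  · exact ⟨_, filter_subset _ _, h2, fun T hT T' hT' =>
      (mem_filter.1 hT).2.trans (mem_filter.1 hT').2.symm⟩
  · refine ⟨S.filter fun T => ¬T v = true, filter_subset _ _, by omega, fun T hT T' hT' => ?_⟩
    rw [Bool.eq_false_iff.2 (mem_filter.1 hT).2, Bool.eq_false_iff.2 (mem_filter.1 hT').2]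

/-- Falsity of `φ` has certificates of size at most `k`. -/
def Narrow {C : Type} (k : ℕ) (φ : (C → Bool) → Prop) : Prop :=
  ∀ t, ¬φ t → ∃ Q : Finset C, #Q ≤ k ∧ ∀ t', (∀ c ∈ Q, t' c = t c) → ¬φ t'

theorem chain {k : ℕ} {φ : (Cell B Ru ι → Bool) → Prop} (hφ : Narrow k φ)
    (hf : ∀ t, φ t → Fn head par t) : ∀ (m : ℕ) (S : Finset (B → Bool)),
    (∀ T ∈ S, Lin head par T) → 2 ^ m ≤ #S → ∀ E : Finset (Om B Ru ι), Meas head par (agr S) E →
      #(E.filter fun ω => φ (view head par Set.univ ω)) * Fintype.card (ι → Bool) ^ m ≤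
        k ^ m * #E := by
  intro m
  induction m with
  | zero => intro S _ _ E _; simpa using card_filter_le _ _
  | succ m ih =>
    intro S hS hc E hE
    have hA := cl_agr hS
    obtain ⟨v₀, hv₀⟩ : ∃ v, v ∉ agr S := by
      obtain ⟨T, hT, T', hT', h⟩ := one_lt_card.1 ((Nat.one_lt_two_pow m.succ_ne_zero).trans_le hc)
      obtain ⟨x, hx⟩ := Function.ne_iff.1 h
      exact ⟨x, fun h => hx (h T hT T' hT')⟩
    have key : ∀ ω₀, #((E.filter fun ω => φ (view head par Set.univ ω)).filter fun ω =>
        view head par (agr S) ω = view head par (agr S) ω₀) * Fintype.card (ι → Bool) ^ (m + 1) ≤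
        k ^ (m + 1) * #(E.filter fun ω => view head par (agr S) ω = view head par (agr S) ω₀) := by
      intro ω₀
      set F := E.filter fun ω => view head par (agr S) ω = view head par (agr S) ω₀ with hF
      have mF : Meas head par (agr S) F := fun ω ω' e h =>
        mem_filter.2 ⟨hE _ _ e (mem_filter.1 h).1, e.symm.trans (mem_filter.1 h).2⟩
      obtain ⟨Q, hQ, hQ'⟩ := hφ _ fun h => not_fn_view hA hv₀ ω₀ (hf _ h)
      have h1 : ((E.filter fun ω => φ (view head par Set.univ ω)).filter fun ω =>
          view head par (agr S) ω = view head par (agr S) ω₀) ⊆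
          (Q.filter fun c => (own par c).1 ∉ agr S).biUnion fun c =>
            (F.filter fun ω => ω.1 (own par c).1 = (own par c).2).filter
              fun ω => φ (view head par Set.univ ω) := by
        intro ω h
        simp only [mem_filter] at h
        obtain ⟨c, hc, hc'⟩ : ∃ c ∈ Q, view head par Set.univ ω c ≠ view head par (agr S) ω c := by
          by_contra h2
          push Not at h2
          exact hQ' _ (fun c hc => (h2 c hc).trans (congrFun h.2 c)) h.1.2
        exact mem_biUnion.2 ⟨c, mem_filter.2 ⟨hc, (view_diff hc').1⟩, mem_filter.2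
          ⟨mem_filter.2 ⟨mem_filter.2 ⟨h.1.1, h.2⟩, (view_diff hc').2⟩, h.1.2⟩⟩
      have h2 : ∀ c ∈ Q.filter fun c => (own par c).1 ∉ agr S,
          #((F.filter fun ω => ω.1 (own par c).1 = (own par c).2).filter
            fun ω => φ (view head par Set.univ ω)) * Fintype.card (ι → Bool) ^ (m + 1) ≤
            k ^ m * #F := by
        intro c hc'
        obtain ⟨S', s1, s2, s3⟩ := exists_half S (own par c).1 hc
        have h3 := ih S' (fun T hT => hS T (s1 hT)) s2
          (F.filter fun ω => ω.1 (own par c).1 = (own par c).2) fun ω ω' e h =>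
            mem_filter.2 ⟨mF _ _ (view_mono (A := agr S) (fun x hx T hT T' hT' =>
              hx T (s1 hT) T' (s1 hT')) e)
              (mem_filter.1 h).1, (view_lam e s3).symm.trans (mem_filter.1 h).2⟩
        rw [pow_succ, ← mul_assoc]
        refine (Nat.mul_le_mul_right _ h3).trans ?_
        rw [mul_assoc]
        exact Nat.mul_le_mul_left _ (card_guess hA (mem_filter.1 hc').2 _ mF)
      refine (Nat.mul_le_mul_right _ ((card_le_card h1).trans card_biUnion_le)).trans ?_
      rw [sum_mul]
      refine (sum_le_card_nsmul _ _ _ h2).trans ?_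
      rw [smul_eq_mul, pow_succ', mul_assoc]
      exact Nat.mul_le_mul_right _ ((card_filter_le _ _).trans hQ)
    rw [card_eq_sum_card_fiberwise (f := view head par (agr S))
        (t := univ.image (view head par (agr S))) fun ω _ => by simp,
      card_eq_sum_card_fiberwise (s := E) (f := view head par (agr S))
        (t := univ.image (view head par (agr S))) fun ω _ => by simp, sum_mul, mul_sum]
    refine sum_le_sum fun η hη => ?_
    obtain ⟨ω₀, -, rfl⟩ := mem_image.1 hη
    exact key ω₀

/-- A disjunction of narrow formulas that computes the function has many members. -/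
theorem core {k m : ℕ} {S : Finset (B → Bool)} (hS : ∀ T ∈ S, Lin head par T) (hc : 2 ^ m ≤ #S)
    {W : Type} [Fintype W] {φ : W → (Cell B Ru ι → Bool) → Prop} (hφ : ∀ w, Narrow k (φ w))
    (h : ∀ t, Fn head par t ↔ ∃ w, φ w t) :
    Fintype.card (ι → Bool) ^ m ≤ Fintype.card W * k ^ m := by
  have h1 : (univ : Finset (Om B Ru ι)) ⊆
      univ.biUnion fun w => univ.filter fun ω => φ w (view head par Set.univ ω) := fun ω _ => by
    simpa using (h _).1 (fn_view ω)
  have h2 := fun w (_ : w ∈ univ) => chain (hφ w) (fun t ht => (h t).2 ⟨w, ht⟩) m S hS hc univ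
    fun _ _ _ _ => mem_univ _
  have h3 := (Nat.mul_le_mul_right (Fintype.card (ι → Bool) ^ m)
    ((card_le_card h1).trans card_biUnion_le))
  rw [sum_mul] at h3
  have h4 := h3.trans (sum_le_card_nsmul _ _ _ h2)
  rw [smul_eq_mul, ← mul_assoc, mul_comm, card_univ (α := W)] at h4
  exact Nat.le_of_mul_le_mul_right h4 (card_pos.2 univ_nonempty)

end Pool.Agent.Lib.MP_cb4cf2_lc
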