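import Pool.Agent.Lib.MP_cb4cf2_lc.Defs
import Pool.Agent.Lib.MP_cb4cf2_lc.Core
import Pool.Agent.Lib.MP_dec383_lc.UN
import Pool.Agent.Lib.MP_ddf912_lc.Rel.Oracle

/-! General facts on oracle machines. -/

namespace Pool.Agent.Lib.MP_cb4cf2_lc

open Pool.Agent.Lib.helper82 Pool.Agent.Lib.MP_dec383_lc Filter Topology Classical

abbrev Inp := Str × Str × Str

theorem OM.hist_congr (M : OM) {A A' : Str → Bool} {u : Inp} : ∀ n,
    (∀ j < n, A' (M.query (u, M.hist A u j)) = A (M.query (u, M.hist A u j))) →
      M.hist A' u n = M.hist A u n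
  | 0, _ => rfl
  | n + 1, h => by
    have ih := M.hist_congr n fun j hj => h j (by omega)
    simp only [OM.hist, ih, h n (by omega)]

/-- A run depends on at most `rounds` values of the oracle. -/
theorem OM.exists_use (M : OM) (A : Str → Bool) (x y z : Str) : ∃ Q : Finset Str,
    Q.card ≤ M.rounds.eval (x.length + y.length + z.length) ∧
      ∀ A' : Str → Bool, (∀ q ∈ Q, A' q = A q) → (M.Acc A' x y z ↔ M.Acc A x y z) := by
  refine ⟨(Finset.range _).image fun j => M.query ((x, y, z), M.hist A (x, y, z) j),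
    Finset.card_image_le.trans (Finset.card_range _).le, fun A' h => ?_⟩
  rw [OM.Acc, OM.Acc, M.hist_congr _ fun j hj =>
    h _ (Finset.mem_image_of_mem _ (Finset.mem_range.2 hj))]

theorem eventually_eq_at (A : Str → Bool) (q : Str) : ∀ᶠ A' in 𝓝 A, A' q = A q :=
  ((continuous_apply q).tendsto A).eventually (p := fun b => b = A q)
    ((isOpen_discrete {A q}).mem_nhds rfl)

theorem OM.eventually_acc (M : OM) (A : Str → Bool) (x y z : Str) :
    ∀ᶠ A' in 𝓝 A, (M.Acc A' x y z ↔ M.Acc A x y z) := by
  obtain ⟨Q, -, h⟩ := M.exists_use A x y z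
  exact ((eventually_all_finset Q).2 fun q _ => eventually_eq_at A q).mono h

theorem countable_poly : Countable (Polynomial ℕ) :=
  (show Function.Injective fun p : Polynomial ℕ => p.toFinsupp.coeff from fun _ _ e =>
    Polynomial.toFinsupp_injective (AddMonoidAlgebra.coeff_injective e)).countable

theorem countable_OM : Countable OM := by
  have := countable_poly
  have := MP_ddf912_lc.Rel.countable_PT (α := Inp × Str) (β := Str)
  have := MP_ddf912_lc.Rel.countable_PT (α := Inp × Str) (β := Bool)
  let f : OM → {F : Inp × Str → Str // PT F} × {F : Inp × Str → Bool // PT F} × Polynomial ℕ :=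
    fun M => (⟨M.query, PT.ofIsPolyTime M.query_poly⟩, ⟨M.out, PT.ofIsPolyTime M.out_poly⟩,
      M.rounds)
  refine (show Function.Injective f from ?_).countable
  rintro ⟨q, o, r, _, _⟩ ⟨q', o', r', _, _⟩ e
  simp only [f, Prod.mk.injEq, Subtype.mk.injEq] at e
  obtain ⟨rfl, rfl, rfl⟩ := e
  rfl

theorem narrow_all {C Z : Type} (M : OM) {code : C → Str} (hc : Function.Injective code)
    (H : Str → Bool) (x y : Str) (z : Z → Str) {k : ℕ}
    (hk : ∀ w, M.rounds.eval (x.length + y.length + (z w).length) ≤ k) :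
    Narrow k fun t : C → Bool => ∀ w, M.Acc (Function.extend code t H) x y (z w) := by
  intro t ht
  obtain ⟨w, hw⟩ := not_forall.1 ht
  obtain ⟨Q, h1, h2⟩ := M.exists_use (Function.extend code t H) x y (z w)
  refine ⟨Q.preimage code hc.injOn, ?_, fun t' h3 h4 => hw ((h2 _ fun q hq => ?_).1 (h4 w))⟩
  · refine le_trans (Finset.card_le_card_of_injOn code (fun c h => ?_) hc.injOn) (h1.trans (hk w))
    simpa using h
  · by_cases e : ∃ c, code c = q
    · obtain ⟨c, rfl⟩ := e
      rw [hc.extend_apply, hc.extend_apply, h3 c (Finset.mem_preimage.2 hq)]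
    · rw [Function.extend_apply' _ _ _ e, Function.extend_apply' _ _ _ e]

/-- A machine that checks a list of required answers. -/
theorem exists_checker {ok : Inp → Bool} {req : Inp → List (Str × Bool)} (h1 : PT ok)
    (h2 : PT req) : ∃ M : OM, ∀ A x y z,
      M.Acc A x y z ↔ ok (x, y, z) = true ∧ ∀ q ∈ req (x, y, z), A q.1 = q.2 := by
  obtain ⟨p, hp⟩ := h2.sz_bd
  have a1 : PT fun s : Inp × Str => ((req s.1).getD s.2.length ([], false)).1 :=
    PT.fst (ptGetD (PT.comp h2 PT.fst') (PT.length PT.snd') _)
  have a2 : PT fun s : Inp × Str => ok s.1 && (List.range (req s.1).length).all fun i =>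
      decide (s.2.getD i false = ((req s.1).getD i ([], false)).2) :=
    PT.and (PT.comp h1 PT.fst') (PT.all
      (P := fun (s : Inp × Str) i => decide (s.2.getD i false = ((req s.1).getD i ([], false)).2))
      (PT.range (PT.comp h2 PT.fst')) (PT.eq (ptGetD (PT.snd PT.fst') PT.snd' _)
        (PT.snd (ptGetD (PT.comp h2 (PT.fst PT.fst')) PT.snd' _))))
  let M : OM := ⟨_, _, p.comp (6 * Polynomial.X + 2), a1.isPolyTime, a2.isPolyTime⟩
  have h3 : ∀ A u n, M.hist A u n =
      (List.range n).map fun i => A ((req u).getD i ([], false)).1 := fun A u n => by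
    induction n with
    | zero => rfl
    | succ n ih => rw [OM.hist, ih]; simp [List.range_succ, M]
  refine ⟨M, fun A x y z => ?_⟩
  have h4 : (req (x, y, z)).length ≤ M.rounds.eval (x.length + y.length + z.length) := by
    refine (length_le_sz _).trans ((hp _).trans ?_)
    simp only [M, Polynomial.eval_comp]
    refine eval_mono p ?_
    simp only [sz_prod, PT.sz_listBool, Polynomial.eval_add, Polynomial.eval_mul,
      Polynomial.eval_X, Polynomial.eval_ofNat]
    omega
  rw [OM.Acc, h3]
  generalize M.rounds.eval (x.length + y.length + z.length) = N at h4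
  simp only [M, Bool.and_eq_true, List.all_eq_true, List.mem_range, decide_eq_true_eq]
  refine and_congr_right fun _ => ⟨fun h q hq => ?_, fun h i hi => ?_⟩
  · obtain ⟨i, hi, rfl⟩ := List.getElem_of_mem hq
    simpa [hi, hi.trans_le h4] using h i hi
  · simpa [hi, hi.trans_le h4] using h _ (List.getElem_mem hi)

end Pool.Agent.Lib.MP_cb4cf2_lc
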