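import Pool.Agent.Lib.MP_cb4cf2_lc.AENum
import Pool.Agent.Lib.MP_cb4cf2_lc.Mach
import Pool.Agent.Lib.MP_cb4cf2_lc.Defs2

/-! The oracle. -/

namespace Pool.Agent.Lib.MP_cb4cf2_lc.AE

open Pool.Agent.Lib.helper82 Classical Function Filter Topology

noncomputable def pp : Polynomial ℕ := 8 * Polynomial.X ^ 2

theorem pp_eval (n : ℕ) : pp.eval n = 8 * n ^ 2 := by simp [pp]

/-- The random strings for which some answer is accepted. -/
def Pres (A : Str → Bool) (x : Str) : Set (Fin (pp.eval x.length) → Bool) :=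
  {r | ∃ y : Fin (pp.eval x.length) → Bool, A (enc (x, List.ofFn r, List.ofFn y)) = true}

def Dg (M : OM) (A : Str → Bool) (u : Str) (m : ℕ) : Prop :=
  ∃ y : Fin m → Bool, ∀ z : Fin m → Bool, M.Acc A u (List.ofFn y) (List.ofFn z)

def Vd (e : OM × ℕ) (n : ℕ) : Prop :=
  e.2 ≤ n ∧ e.1.rounds.eval (n + n / 8 + 2 ^ (e.2 * n) + 2 ^ (e.2 * n)) ≤ 2 ^ n ^ 2

/-- The promise holds at `x` and the requirements of length `|x|` are met. -/
def Cond (en : ℕ → OM × ℕ) (x : Str) (A : Str → Bool) : Prop :=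
  ((∀ r, r ∈ Pres A x) ∨ 3 * (Pres A x).ncard ≤ 2 ^ pp.eval x.length) ∧
    ∀ (i : Fin (x.length / 8 - 8)) (a : Fin (x.length / 8) → Bool), Vd (en i) x.length →
      ∃ f : Fin x.length → Bool, ¬((∀ r, r ∈ Pres A (List.ofFn f)) ↔
        Dg (en i).1 A (List.ofFn f ++ List.ofFn a) (2 ^ ((en i).2 * x.length)))

theorem ev_Pres (A : Str → Bool) (x : Str) : ∀ᶠ A' in 𝓝 A, Pres A' x = Pres A x :=
  (eventually_all.2 fun r : Fin (pp.eval x.length) → Bool => eventually_all.2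
    fun y : Fin (pp.eval x.length) → Bool =>
      eventually_eq_at A (enc (x, List.ofFn r, List.ofFn y))).mono fun _ h => by
    simp only [Pres, h]

theorem ev_Dg (M : OM) (A : Str → Bool) (u : Str) (m : ℕ) :
    ∀ᶠ A' in 𝓝 A, (Dg M A' u m ↔ Dg M A u m) :=
  (eventually_all.2 fun y : Fin m → Bool => eventually_all.2 fun z : Fin m → Bool =>
    M.eventually_acc A u (List.ofFn y) (List.ofFn z)).mono fun _ h => by simp only [Dg, h]

theorem ev_Cond (en : ℕ → OM × ℕ) (x : Str) (A : Str → Bool) :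
    ∀ᶠ A' in 𝓝 A, Cond en x A' → Cond en x A := by
  have h1 := eventually_all.2 fun f : Fin x.length → Bool => ev_Pres A (List.ofFn f)
  have h2 := eventually_all.2 fun f : Fin x.length → Bool => eventually_all.2
    fun i : Fin (x.length / 8 - 8) => eventually_all.2 fun a : Fin (x.length / 8) → Bool =>
      ev_Dg (en i).1 A (List.ofFn f ++ List.ofFn a) (2 ^ ((en i).2 * x.length))
  refine ((ev_Pres A x).and (h1.and h2)).mono fun A' h h3 => ?_
  simpa only [Cond, h.1, h.2.1, h.2.2] using h3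

theorem exists_emb (n : ℕ) : Nonempty (Fin (2 ^ (n / 2)) × Fin (n / 8 - 8) × (Fin (n / 8) → Bool) ↪
    (Fin n → Bool)) := by
  refine Embedding.nonempty_of_card_le ?_
  simp only [Fintype.card_prod, Fintype.card_fin, Fintype.card_fun, Fintype.card_bool]
  refine (Nat.mul_le_mul_left _ (Nat.mul_le_mul_right _
    ((Nat.sub_le _ _).trans Nat.lt_two_pow_self.le))).trans ?_
  rw [← pow_add, ← pow_add]
  exact Nat.pow_le_pow_right (by norm_num) (by omega)

theorem sparse_le {n : ℕ} (h : 0 < n) : 3 * 2 ^ (2 * (2 ^ n.size) ^ 2 - 2) ≤ 2 ^ pp.eval n := by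
  have h1 := Nat.pow_le_pow_left (two_pow_size h) 2
  have h2 : 1 ≤ (2 ^ n.size) ^ 2 := Nat.one_le_pow _ _ (by positivity)
  refine (Nat.mul_le_mul_right _ (show 3 ≤ 2 ^ 2 by norm_num)).trans ?_
  rw [← pow_add, pp_eval]
  refine Nat.pow_le_pow_right (by norm_num) ?_
  rw [mul_pow] at h1
  omega

theorem stage (en : ℕ → OM × ℕ) (N : ℕ) : ∃ A, ∀ x : Str, x.length < N → Cond en x A := by
  have : Fintype {x : Str // x.length < N} := (List.finite_length_lt Bool N).fintype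
  let X := {x : Str // x.length < N}
  let Bk : X → Type := fun x => Fin (pp.eval x.1.length) → Bool
  let code : (Σ v : Σ x, Bk x, Bk v.1) → Str := fun c =>
    enc (c.1.1.1, List.ofFn c.1.2, List.ofFn c.2)
  have hc : Injective code := by
    rintro ⟨⟨⟨x, _⟩, b⟩, μ⟩ ⟨⟨⟨x', _⟩, b'⟩, μ'⟩ e
    have := enc_injective e
    simp only [Prod.mk.injEq] at this
    obtain ⟨rfl, h1, h2⟩ := this
    rw [List.ofFn_injective h1, List.ofFn_injective h2]
  let emb := fun n => (exists_emb n).some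
  let pf : ∀ ρ : Rq N, ℕ → Fin ρ.1 → Bool := fun ρ e =>
    emb ρ.1 (⟨e % _, Nat.mod_lt _ (by positivity)⟩, ρ.2)
  let pt : Rq N → ℕ → X := fun ρ e => ⟨List.ofFn (pf ρ e), by simp⟩
  have hl : ∀ ρ e, (pt ρ e).1.length = ρ.1 := fun ρ e => List.length_ofFn
  have h7 : ∀ ρ : Rq N, 7 ≤ ρ.1.val.size := fun ρ =>
    Nat.lt_size.2 ((by norm_num : 2 ^ 6 ≤ 72).trans (le_len ρ))
  have hn : ∀ (ρ : Rq N) l, ρ.1.val.size ≤ l → ρ.1.val ^ 2 ≤ (2 ^ l) ^ 2 := fun ρ l h =>
    Nat.pow_le_pow_left (Nat.size_le.1 h).le 2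
  obtain ⟨t, h1, h2⟩ := injury (g := fun ρ : Rq N => ρ.1.val.size) (Q := QQ) (Bk := Bk) (Sl := Bk)
    (W := fun ρ => Fin (2 ^ (min (en ρ.2.1).2 ρ.1 * ρ.1)) → Bool) (fun x => x.1.length.size) pt
    (fun ρ e y t => Vd (en ρ.2.1) ρ.1 ∧ ∀ z : Fin (2 ^ (min (en ρ.2.1).2 ρ.1 * ρ.1)) → Bool,
      (en ρ.2.1).1.Acc (extend code t fun _ => false) ((pt ρ e).1 ++ List.ofFn ρ.2.2)
        (List.ofFn y) (List.ofFn z))
    (fun l => 2 ^ (2 ^ l) ^ 2) (fun l => 2 ^ (2 * (2 ^ l) ^ 2))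
    (fun l => 2 ^ (2 * (2 ^ l) ^ 2 - 2)) (fun l => 2 ^ (2 ^ (2 ^ l) ^ 2 + 1)) QQ
    (fun l => 3 ^ 2 ^ (l - 1) * 2 ^ (8 * (2 ^ (l - 1) - 1) ^ 2))
    (fun ρ e => congrArg Nat.size (hl ρ e))
    (by
      have a : ∀ ρ : Rq N, EB QQ ρ.1.val.size ≤ 2 ^ (ρ.1.val / 2) := fun ρ => by
        have := two_pow_size (show 0 < ρ.1.val by have := le_len ρ; omega)
        exact (EB_le _).trans (Nat.pow_le_pow_right (by norm_num) (by omega))
      rintro ⟨n, u⟩ e ⟨n', u'⟩ e' a1 a2 a3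
      obtain rfl : n = n' := Fin.ext ((hl _ _).symm.trans
        ((congrArg (fun x : X => x.1.length) a3).trans (hl _ _)))
      have a4 := (emb n).injective (List.ofFn_injective (congrArg Subtype.val a3))
      simp only [Prod.mk.injEq, Fin.mk.injEq] at a4
      rw [Nat.mod_eq_of_lt (a1.trans_le (a _)), Nat.mod_eq_of_lt (a2.trans_le (a _))] at a4
      exact ⟨by rw [a4.2], a4.1⟩)
    (fun j => (Finset.card_le_card fun ρ h => Finset.mem_filter.2
      ⟨Finset.mem_univ _, (Finset.mem_filter.1 h).2.le⟩).trans (card_Rq N j))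
    (fun ρ e y l h => by
      by_cases v : Vd (en ρ.2.1) ρ.1
      · simp only [v, true_and]
        refine narrow_all _ hc _ _ _ _ fun z => le_trans ?_
          (v.2.trans (Nat.pow_le_pow_right (by norm_num) (hn ρ l h)))
        simp [hl, min_eq_left v.1]
      · exact fun t _ => ⟨∅, by simp, fun _ _ h => v h.1⟩)
    (fun a b h => Nat.pow_le_pow_right (by norm_num) (Nat.sub_le_sub_right (Nat.mul_le_mul_left _
      (Nat.pow_le_pow_left (Nat.pow_le_pow_right (by norm_num) h) 2)) 2))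
    (by
      rintro x _ h ⟨ρ, rfl⟩
      have a1 := h7 ρ
      have a2 := Nat.pow_le_pow_left ((Nat.pow_le_pow_right (by norm_num) h).trans
        (two_pow_size (Nat.size_pos.1 (by omega)))) 2
      simp only [Bk, Fintype.card_fun, Fintype.card_bool, Fintype.card_fin, pp_eval]
      refine Nat.pow_le_pow_right (by norm_num) ?_
      rw [mul_pow] at a2
      omega)
    (fun l => by positivity)
    (fun ρ l h => by
      have a1 : 2 ^ 2 ^ (min (en ρ.2.1).2 ρ.1 * ρ.1) ≤ 2 ^ 2 ^ (2 ^ l) ^ 2 :=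
        Nat.pow_le_pow_right (by norm_num) (Nat.pow_le_pow_right (by norm_num)
          ((Nat.mul_le_mul_right _ (min_le_right _ _)).trans ((sq _).ge.trans (hn ρ l h))))
      have a2 : 1 ≤ 2 ^ 2 ^ (2 ^ l) ^ 2 := Nat.one_le_two_pow
      simp only [Fintype.card_fun, Fintype.card_bool, Fintype.card_fin]
      omega)
    (card_Rq N)
    (fun l => card_sig _ (fun x : X => x.1.length < 2 ^ (l - 1))
      (fun v hv => Nat.size_le.1 (by omega)) (card_short _) fun x hx => by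
        simp only [Bk, Fintype.card_fun, Fintype.card_bool, Fintype.card_fin, pp_eval]
        exact Nat.pow_le_pow_right (by norm_num) (Nat.mul_le_mul_left _
          (Nat.pow_le_pow_left (by omega) 2)))
    (fun ρ => by
      have a1 := h7 ρ
      obtain ⟨m, e⟩ : ∃ m, ρ.1.val.size = m + 1 := ⟨ρ.1.val.size - 1, by omega⟩
      simp only [e, Nat.add_sub_cancel]
      exact (num m).resolve_right (by omega))
  have h3 : ∀ x : X, Pres (extend code t fun _ => false) x.1 =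
      {b | ∃ μ, t ⟨⟨x, b⟩, μ⟩ = true} := fun x => Set.ext fun b => exists_congr fun μ =>
    iff_of_eq (congrArg (· = true) (hc.extend_apply t _ ⟨⟨x, b⟩, μ⟩))
  have h4 : ∀ ρ e, Sparse t (pt ρ e) (2 ^ (2 * (2 ^ ρ.1.val.size) ^ 2 - 2)) →
      3 * (Pres (extend code t fun _ => false) (pt ρ e).1).ncard ≤
        2 ^ pp.eval (pt ρ e).1.length := fun ρ e h => by
    rw [h3]
    refine (Nat.mul_le_mul_left 3 h).trans ?_
    rw [hl]
    exact sparse_le (by have := le_len ρ; omega)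
  refine ⟨extend code t fun _ => false, fun x hx => ⟨?_, fun i a v => ?_⟩⟩
  · rcases h1 ⟨x, hx⟩ with h | ⟨h, ρ, e, h5⟩
    · exact Or.inl fun r => (h3 ⟨x, hx⟩).ge (h r)
    · rw [h5, hl] at h
      exact Or.inr (by rw [show x = (pt ρ e).1 from congrArg Subtype.val h5]; exact h4 ρ e h)
  · obtain ⟨e, h5⟩ := h2 ⟨⟨_, hx⟩, i, a⟩
    refine ⟨pf ⟨⟨_, hx⟩, i, a⟩ e, fun h6 => ?_⟩
    rw [← min_eq_left v.1] at h6
    rcases h5 with ⟨h7, h8⟩ | ⟨h7, y, -, h8⟩
    · obtain ⟨y, hy⟩ := h6.1 fun r => (h3 (pt _ e)).ge (h7 r)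
      exact h8 ⟨y, v, hy⟩
    · have h9 := h4 _ _ h7
      rw [Set.eq_univ_of_forall (h6.2 ⟨y, h8⟩), Set.ncard_univ, Nat.card_eq_fintype_card,
        Fintype.card_fun, Fintype.card_bool, Fintype.card_fin] at h9
      have : 0 < 2 ^ pp.eval (pt ⟨⟨_, hx⟩, i, a⟩ e).1.length := by positivity
      omega

theorem exists_cond (en : ℕ → OM × ℕ) : ∃ A, ∀ x, Cond en x A := by
  choose F hF using stage en
  obtain ⟨A, hA⟩ := exists_clusterPt_of_compactSpace (map F atTop)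
  refine ⟨A, fun x => ?_⟩
  obtain ⟨N, h1, h2⟩ := ((MapClusterPt.frequently (u := F) hA (ev_Cond en x A)).and_eventually
    (eventually_gt_atTop x.length)).exists
  exact h1 (hF N x h2)

theorem ev_Vd (e : OM × ℕ) : ∀ᶠ n in atTop, Vd e n := by
  obtain ⟨d, hd⟩ := Bd.le_pow (Bd.self.eval e.1.rounds)
  filter_upwards [eventually_ge_atTop ((e.2 + 3) * d + e.2 + 1)] with n hn
  refine ⟨by omega, ?_⟩
  have h1 : n + n / 8 + 2 ^ (e.2 * n) + 2 ^ (e.2 * n) ≤ 2 ^ ((e.2 + 3) * n) := by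
    have a1 : n < 2 ^ n := Nat.lt_two_pow_self
    have a2 : 2 ^ n ≤ 2 ^ ((e.2 + 1) * n) := Nat.pow_le_pow_right (by norm_num) (by nlinarith)
    have a3 : 2 ^ (e.2 * n) ≤ 2 ^ ((e.2 + 1) * n) :=
      Nat.pow_le_pow_right (by norm_num) (by nlinarith)
    have a4 : 2 ^ ((e.2 + 1) * n + 2) ≤ 2 ^ ((e.2 + 3) * n) :=
      Nat.pow_le_pow_right (by norm_num) (by nlinarith)
    rw [pow_add] at a4
    omega
  refine (eval_mono _ h1).trans ((hd _ (Nat.one_lt_two_pow (by nlinarith))).trans ?_)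
  rw [← pow_mul]
  exact Nat.pow_le_pow_right (by norm_num) (by nlinarith)

theorem main : ∃ A, ∃ L ∈ AM A, L ∉ ioSigma2E A := by
  obtain ⟨V, hV⟩ := exists_checker (ok := fun _ => true) (req := fun u => [(enc u, true)])
    (PT.const _) (PT.cons (PT.pair PT.encList (PT.const _)) (PT.const _))
  have := countable_OM
  have : Nonempty OM := ⟨V⟩
  obtain ⟨en, hen⟩ := exists_surjective_nat (OM × ℕ)
  obtain ⟨A, hA⟩ := exists_cond en
  refine ⟨A, {x | ∀ r, r ∈ Pres A x}, ⟨V, pp, fun x => ?_⟩, fun ⟨M, c, h⟩ => ?_⟩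
  · have e : V.prob pp A x = ((Pres A x).ncard : ℚ) / 2 ^ pp.eval x.length := by
      simp [OM.prob, Pres, hV]
    rw [e]
    refine ⟨fun hx => ?_, fun hx => ?_⟩
    · rw [Set.eq_univ_of_forall hx, Set.ncard_univ, Nat.card_eq_fintype_card, Fintype.card_fun,
        Fintype.card_bool, Fintype.card_fin, Nat.cast_pow, Nat.cast_ofNat,
        div_self (by positivity)]
      norm_num
    · rw [div_le_div_iff₀ (by positivity) (by norm_num), one_mul, mul_comm]
      exact_mod_cast (hA x).1.resolve_left hx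
  · obtain ⟨i, hi⟩ := hen (M, c)
    obtain ⟨n, ⟨a, h1⟩, h2, h3⟩ := (h.and_eventually ((ev_Vd (en i)).and
      (eventually_ge_atTop (8 * i + 72)))).exists
    obtain ⟨x, rfl⟩ : ∃ x : Str, x.length = n := ⟨List.replicate n true, by simp⟩
    obtain ⟨f, hf⟩ := (hA x).2 ⟨i, by omega⟩ a h2
    simp only [hi] at hf
    exact hf (h1 _ List.length_ofFn)

end Pool.Agent.Lib.MP_cb4cf2_lc.AE
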