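import Pool.Agent.Lib.MP_cb4cf2_lc.Inj2

/-! Counting and numerical bounds. -/

namespace Pool.Agent.Lib.MP_cb4cf2_lc.AE

open Finset

theorem card_sig {I : Type} [Fintype I] {F : I → Type} [∀ i, Fintype (F i)]
    (p : (Σ i, F i) → Prop) [DecidablePred p] (r : I → Prop) [DecidablePred r] {m c : ℕ}
    (h0 : ∀ v, p v → r v.1) (h1 : #(univ.filter r) ≤ m) (h2 : ∀ i, r i → Fintype.card (F i) ≤ c) :
    #(univ.filter p) ≤ m * c := by
  refine (card_le_card (t := (univ.filter r).sigma fun _ => univ) fun v hv =>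
    mem_sigma.2 ⟨mem_filter.2 ⟨mem_univ _, h0 v (mem_filter.1 hv).2⟩, mem_univ _⟩).trans ?_
  rw [card_sigma]
  exact (sum_le_card_nsmul _ _ c fun i hi => h2 i (mem_filter.1 hi).2).trans
    (Nat.mul_le_mul_right _ h1)

theorem card_fin_lt (N m : ℕ) : #(univ.filter fun n : Fin N => n.val < m) ≤ m :=
  (card_le_card_of_injOn Fin.val (fun _ h => mem_range.2 (mem_filter.1 h).2)
    Fin.val_injective.injOn).trans (card_range m).le

theorem card_short {p : List Bool → Prop} [Fintype {x // p x}] (m : ℕ) :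
    #(univ.filter fun x : {x // p x} => x.1.length < m) ≤ 3 ^ m := by
  refine (card_le_card_of_injOn (t := univ) (fun x (i : Fin m) => x.1[i.val]?)
    (fun _ _ => mem_univ _) fun x hx y hy e => Subtype.ext (List.ext_getElem? fun i => ?_)).trans
    (by simp)
  by_cases h : i < m
  · exact congrFun e ⟨i, h⟩
  · have h1 := (mem_filter.1 hx).2
    have h2 := (mem_filter.1 hy).2
    rw [List.getElem?_eq_none (by omega), List.getElem?_eq_none (by omega)]

/-- The requirements: a length, the number of a machine and an advice string. -/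
abbrev Rq (N : ℕ) := Σ n : Fin N, Fin (n / 8 - 8) × (Fin (n / 8) → Bool)

def QQ (j : ℕ) : ℕ := 2 ^ (2 ^ j / 4) - 1

theorem le_len {N : ℕ} (ρ : Rq N) : 72 ≤ ρ.1.val := by
  have := ρ.2.1.2
  omega

theorem two_pow_size {n : ℕ} (h : 0 < n) : 2 ^ n.size ≤ 2 * n := by
  rcases e : n.size with _ | s
  · omega
  · have := Nat.lt_size.1 (show s < n.size by omega)
    omega

theorem lin_le : ∀ j, 7 ≤ j → 16 * j + 16 ≤ 2 ^ j := fun j h => by
  induction j, h using Nat.le_induction with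
  | base => norm_num
  | succ j _ ih => omega

theorem card_Rq (N j : ℕ) : #(univ.filter fun ρ : Rq N => ρ.1.val.size ≤ j) ≤ QQ j := by
  by_cases h : 7 ≤ j
  · refine (card_sig _ (fun n : Fin N => n.val < 2 ^ j) (c := 2 ^ j * 2 ^ (2 ^ j / 8))
      (fun v hv => Nat.size_le.1 hv) (card_fin_lt _ _) fun n hn => ?_).trans ?_
    · rw [Fintype.card_prod, Fintype.card_fun, Fintype.card_bool, Fintype.card_fin,
        Fintype.card_fin]
      exact Nat.mul_le_mul (by omega) (Nat.pow_le_pow_right (by norm_num) (by omega))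
    · have := lin_le j h
      rw [← pow_add, ← pow_add]
      exact Nat.le_sub_one_of_lt (Nat.pow_lt_pow_right (by norm_num) (by omega))
  · rw [filter_eq_empty_iff.2, card_empty]
    · exact Nat.zero_le _
    · intro ρ _ h1
      have h2 := (Nat.size_le.1 h1).trans_le (Nat.pow_le_pow_right (by norm_num)
        (show j ≤ 6 by omega))
      have := le_len ρ
      omega

theorem EB_le : ∀ j, EB QQ j ≤ 2 ^ (2 ^ j / 4)
  | 0 => le_rfl
  | j + 1 => by
    rw [EB, QQ, Nat.sub_add_cancel Nat.one_le_two_pow]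
    refine (Nat.mul_le_mul_right _ (EB_le j)).trans ?_
    rw [← pow_add]
    exact Nat.pow_le_pow_right (by norm_num) (by omega)

theorem num (m : ℕ) : 2 ^ (m + 1 + 1) * ((2 ^ (2 ^ (2 ^ (m + 1)) ^ 2 + 1)) ^ QQ (m + 1) *
    2 ^ (3 ^ 2 ^ m * 2 ^ (8 * (2 ^ m - 1) ^ 2))) *
      (2 ^ (2 ^ (m + 1)) ^ 2) ^ 2 ^ (2 * (2 ^ (m + 1)) ^ 2 - 2) ≤
        (2 ^ (2 * (2 ^ (m + 1)) ^ 2)) ^ 2 ^ (2 * (2 ^ (m + 1)) ^ 2 - 2) ∨ m = 0 := by
  refine or_iff_not_imp_right.2 fun h0 => ?_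
  have a0 : m < 2 ^ m := Nat.lt_two_pow_self
  have a1 : QQ (m + 1) ≤ 2 ^ 2 ^ (m + 1) :=
    (Nat.sub_le _ _).trans (Nat.pow_le_pow_right (by norm_num) (Nat.div_le_self _ _))
  generalize QQ (m + 1) = q at a1
  rw [pow_succ' 2 m] at *
  obtain ⟨h, e⟩ : ∃ h, 2 ^ m = h + 1 := ⟨2 ^ m - 1, by omega⟩
  rw [e] at a0 a1 ⊢
  have a2 : 1 ≤ h := by omega
  obtain ⟨u, e'⟩ : ∃ u, 2 * (2 * (h + 1)) ^ 2 = u + 2 := ⟨8 * h ^ 2 + 16 * h + 6, by ring⟩
  rw [e', Nat.add_sub_cancel, Nat.add_sub_cancel, ← e']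
  have b1 : m + 1 + 1 ≤ 2 ^ u := le_trans (by nlinarith) Nat.lt_two_pow_self.le
  have b2 : (2 ^ (2 * (h + 1)) ^ 2 + 1) * q ≤ 2 ^ u := by
    refine (Nat.mul_le_mul (show _ ≤ 2 ^ ((2 * (h + 1)) ^ 2 + 1) from ?_) a1).trans ?_
    · have : 1 ≤ 2 ^ (2 * (h + 1)) ^ 2 := Nat.one_le_two_pow
      omega
    · rw [← pow_add]
      exact Nat.pow_le_pow_right (by norm_num) (by nlinarith)
  have b3 : 3 ^ (h + 1) * 2 ^ (8 * h ^ 2) ≤ 2 ^ u := by
    refine (Nat.mul_le_mul_right _ (Nat.pow_le_pow_left (show 3 ≤ 2 ^ 2 by norm_num) _)).trans ?_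
    rw [← pow_mul, ← pow_add]
    exact Nat.pow_le_pow_right (by norm_num) (by nlinarith)
  rw [← pow_mul, ← pow_mul, ← pow_mul, ← pow_add, ← pow_add, ← pow_add]
  refine Nat.pow_le_pow_right (by norm_num) ?_
  have b4 := Nat.mul_le_mul_right (2 ^ u) (show 3 ≤ (2 * (h + 1)) ^ 2 by nlinarith)
  rw [mul_assoc 2]
  omega

end Pool.Agent.Lib.MP_cb4cf2_lc.AE
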