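import Pool.Prelude.Def_H_3587d628

/-! Polynomial time oracle machines, Arthur-Merlin protocols and the second level of the
polynomial hierarchy relative to an oracle. -/

namespace Pool.Agent.Lib.MP_cb4cf2_lc

open N68a2faeb

abbrev Str := List Bool

/-- A polynomial time oracle machine on triples of strings.  In each of polynomially many rounds
the next query is computed in polynomial time from the input and the earlier answers; the verdict
is computed in polynomial time from the input and all answers. -/
structure OM where
  query : (Str × Str × Str) × Str → Str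
  out : (Str × Str × Str) × Str → Bool
  rounds : Polynomial ℕ
  query_poly : IsPolyTime query
  out_poly : IsPolyTime out

/-- The answers of the oracle `A` to the first `n` queries. -/
def OM.hist (M : OM) (A : Str → Bool) (u : Str × Str × Str) : ℕ → Str
  | 0 => []
  | n + 1 => M.hist A u n ++ [A (M.query (u, M.hist A u n))]

/-- The machine accepts `(x, y, z)` with the oracle `A`. -/
def OM.Acc (M : OM) (A : Str → Bool) (x y z : Str) : Prop :=
  M.out ((x, y, z), M.hist A (x, y, z) (M.rounds.eval (x.length + y.length + z.length))) = true

/-- The probability over `r` of length `p |x|` that some `y` of length `p |x|` is accepted. -/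
noncomputable def OM.prob (M : OM) (p : Polynomial ℕ) (A : Str → Bool) (x : Str) : ℚ :=
  (Set.ncard {r : Fin (p.eval x.length) → Bool | ∃ y : Fin (p.eval x.length) → Bool,
    M.Acc A x (List.ofFn r) (List.ofFn y)} : ℚ) / 2 ^ p.eval x.length

/-- `(M, p)` is an Arthur-Merlin protocol for `L` relative to `A`. -/
def AMvia (M : OM) (p : Polynomial ℕ) (A : Str → Bool) (L : Set Str) : Prop :=
  ∀ x, (x ∈ L → 2 / 3 ≤ M.prob p A x) ∧ (x ∉ L → M.prob p A x ≤ 1 / 3)

/-- The second existential level of the polynomial hierarchy relative to `A`. -/
def Sigma2 (A : Str → Bool) : Set (Set Str) :=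
  {L | ∃ (M : OM) (p : Polynomial ℕ), ∀ x, x ∈ L ↔ ∃ y : Fin (p.eval x.length) → Bool,
    ∀ z : Fin (p.eval x.length) → Bool, M.Acc A x (List.ofFn y) (List.ofFn z)}

end Pool.Agent.Lib.MP_cb4cf2_lc
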