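import Pool.Agent.Lib.MP_cb4cf2_lc.Core

/-! Narrow formulas survive the deletion of hidden elements up to few exceptions. -/

namespace Pool.Agent.Lib.MP_cb4cf2_lc.AE

open Finset Classical

variable {V : Type} {S : V → Type}

/-- The table with one hidden element in each block of `B`. -/
noncomputable def vw (B : Set V) (ω : ∀ v, S v) (c : Σ v, S v) : Bool :=
  decide (c.1 ∈ B ∧ c.2 = ω c.1)

theorem vw_iff {B : Set V} {ω : ∀ v, S v} {v : V} {μ : S v} :
    vw B ω ⟨v, μ⟩ = true ↔ v ∈ B ∧ μ = ω v := decide_eq_true_iff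

theorem vw_lam {B : Set V} {ω ω' : ∀ v, S v} (h : vw B ω = vw B ω') {v : V} (hv : v ∈ B) :
    ω v = ω' v := (vw_iff.1 ((congrFun h _).symm.trans (vw_iff.2 ⟨hv, rfl⟩))).2

theorem vw_mono {B B' : Set V} (hB : B ⊆ B') {ω ω' : ∀ v, S v} (h : vw B' ω = vw B' ω') :
    vw B ω = vw B ω' := by
  funext c
  by_cases h2 : c.1 ∈ B
  · simp [vw, vw_lam h (hB h2)]
  · simp [vw, h2]

theorem vw_diff {B B' : Set V} (hB : B ⊆ B') {ω : ∀ v, S v} {c : Σ v, S v}
    (h : vw B' ω c ≠ vw B ω c) : c.1 ∈ B' ∧ c.1 ∉ B ∧ ω c.1 = c.2 := by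
  by_cases h1 : c.2 = ω c.1
  · by_cases h2 : c.1 ∈ B
    · exact absurd (by simp [vw, h2, hB h2]) h
    · exact ⟨by_contra fun h3 => h (by simp [vw, h2, h3]), h2, h1.symm⟩
  · exact absurd (by simp [vw, h1]) h

theorem vw_update {B : Set V} {v : V} (hv : v ∉ B) (ω : ∀ v, S v) (μ : S v) :
    vw B (Function.update ω v μ) = vw B ω := by
  funext c
  by_cases h : c.1 ∈ B
  · simp [vw, Function.update_of_ne (show c.1 ≠ v from fun e => hv (e ▸ h))]
  · simp [vw, h]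

/-- `Φ` holds above `B₀` but needs at least `s` further blocks. -/
def Bad (Φ : ((Σ v, S v) → Bool) → Prop) (B₀ : Set V) (s : ℕ) (ω : ∀ v, S v) : Prop :=
  ∃ B, B₀ ⊆ B ∧ Φ (vw B ω) ∧ ∀ T : Finset V, ↑T ⊆ B → #T < s → ¬Φ (vw (B₀ ∪ T) ω)

theorem Bad.step {Φ : ((Σ v, S v) → Bool) → Prop} {B₀ B : Set V} {s : ℕ} {ω : ∀ v, S v}
    (h1 : B₀ ⊆ B) (h2 : Φ (vw B ω))
    (h3 : ∀ T : Finset V, ↑T ⊆ B → #T < s + 1 → ¬Φ (vw (B₀ ∪ T) ω)) {v : V} (hv : v ∈ B) :
    Bad Φ (insert v B₀) s ω := by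
  refine ⟨B, Set.insert_subset hv h1, h2, fun T hT hs => ?_⟩
  have := h3 (insert v T) (by rw [coe_insert]; exact Set.insert_subset hv hT)
    (Nat.lt_succ_of_le ((card_insert_le _ _).trans hs))
  rwa [coe_insert, Set.union_insert, ← Set.insert_union] at this

variable [Fintype V] [∀ v, Fintype (S v)]

def Ms (B : Set V) (E : Finset (∀ v, S v)) : Prop := ∀ ω ω', vw B ω = vw B ω' → ω ∈ E → ω' ∈ E

theorem card_guess {B : Set V} {v : V} (hv : v ∉ B) (μ : S v) {E : Finset (∀ v, S v)}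
    (hE : Ms B E) : #(E.filter fun ω => ω v = μ) * Fintype.card (S v) ≤ #E := by
  rw [← card_univ, ← card_product]
  refine card_le_card_of_injOn (fun p => Function.update p.1 v p.2) (fun p hp => ?_) ?_
  · simp only [coe_product, coe_filter, Set.mem_prod, Set.mem_ofPred_eq] at hp
    exact hE _ _ (vw_update hv p.1 p.2).symm hp.1.1
  · rintro ⟨ω, g⟩ hp ⟨ω', g'⟩ hp' e
    simp only [coe_product, coe_filter, Set.mem_prod, Set.mem_ofPred_eq] at hp hp' e
    have h1 : g = g' := by simpa using congrFun e v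
    have h2 : ω = ω' := funext fun u => by
      by_cases h : u = v
      · rw [h, hp.1.2, hp'.1.2]
      · simpa [Function.update_of_ne h] using congrFun e u
    rw [h1, h2]

theorem chain {k R : ℕ} {Φ : ((Σ v, S v) → Bool) → Prop} (hΦ : Narrow k Φ) :
    ∀ (s : ℕ) (B₀ : Set V), (∀ v, v ∉ B₀ → R ≤ Fintype.card (S v)) →
      ∀ E : Finset (∀ v, S v), Ms B₀ E → #(E.filter (Bad Φ B₀ s)) * R ^ s ≤ k ^ s * #E := by
  intro s
  induction s with
  | zero => intro B₀ _ E _; simpa using card_filter_le _ _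
  | succ s ih =>
    intro B₀ hR E hE
    have key : ∀ ω₀, #((E.filter (Bad Φ B₀ (s + 1))).filter fun ω => vw B₀ ω = vw B₀ ω₀) *
        R ^ (s + 1) ≤ k ^ (s + 1) * #(E.filter fun ω => vw B₀ ω = vw B₀ ω₀) := by
      intro ω₀
      set F := E.filter fun ω => vw B₀ ω = vw B₀ ω₀ with hF
      have mF : Ms B₀ F := fun ω ω' e h =>
        mem_filter.2 ⟨hE _ _ e (mem_filter.1 h).1, e.symm.trans (mem_filter.1 h).2⟩
      by_cases h0 : Φ (vw B₀ ω₀)
      · rw [filter_eq_empty_iff.2, card_empty, zero_mul]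
        · exact Nat.zero_le _
        · intro ω h e
          obtain ⟨B, -, -, h3⟩ := (mem_filter.1 h).2
          exact h3 ∅ (by simp) (by simp) (by simpa [e] using h0)
      obtain ⟨Q, hQ, hQ'⟩ := hΦ _ h0
      have h1 : ((E.filter (Bad Φ B₀ (s + 1))).filter fun ω => vw B₀ ω = vw B₀ ω₀) ⊆
          (Q.filter fun c => c.1 ∉ B₀).biUnion fun c =>
            (F.filter fun ω => ω c.1 = c.2).filter (Bad Φ (insert c.1 B₀) s) := by
        intro ω h
        simp only [mem_filter] at h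
        obtain ⟨⟨a1, B, a2, a3, a4⟩, a5⟩ := h
        obtain ⟨c, hc, hc'⟩ : ∃ c ∈ Q, vw B ω c ≠ vw B₀ ω c := by
          by_contra h2
          push Not at h2
          exact hQ' _ (fun c hc => (h2 c hc).trans (congrFun a5 c)) a3
        obtain ⟨b1, b2, b3⟩ := vw_diff a2 hc'
        exact mem_biUnion.2 ⟨c, mem_filter.2 ⟨hc, b2⟩, mem_filter.2
          ⟨mem_filter.2 ⟨mem_filter.2 ⟨a1, a5⟩, b3⟩, Bad.step a2 a3 a4 b1⟩⟩
      have h2 : ∀ c ∈ Q.filter fun c => c.1 ∉ B₀,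
          #((F.filter fun ω => ω c.1 = c.2).filter (Bad Φ (insert c.1 B₀) s)) * R ^ (s + 1) ≤
            k ^ s * #F := by
        intro c hc'
        have h3 := ih (insert c.1 B₀) (fun v hv => hR v fun h => hv (Or.inr h))
          (F.filter fun ω => ω c.1 = c.2) fun ω ω' e h =>
            mem_filter.2 ⟨mF _ _ (vw_mono (Set.subset_insert _ _) e) (mem_filter.1 h).1,
              (vw_lam e (Set.mem_insert _ _)).symm.trans (mem_filter.1 h).2⟩
        rw [pow_succ, ← mul_assoc]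
        refine (Nat.mul_le_mul_right _ h3).trans ?_
        rw [mul_assoc]
        exact Nat.mul_le_mul_left _ ((Nat.mul_le_mul_left _ (hR _ (mem_filter.1 hc').2)).trans
          (card_guess (mem_filter.1 hc').2 _ mF))
      refine (Nat.mul_le_mul_right _ ((card_le_card h1).trans card_biUnion_le)).trans ?_
      rw [sum_mul]
      refine (sum_le_card_nsmul _ _ _ h2).trans ?_
      rw [smul_eq_mul, pow_succ', mul_assoc]
      exact Nat.mul_le_mul_right _ ((card_filter_le _ _).trans hQ)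
    rw [card_eq_sum_card_fiberwise (f := vw B₀) (t := univ.image (vw B₀)) fun ω _ => by simp,
      card_eq_sum_card_fiberwise (s := E) (f := vw B₀) (t := univ.image (vw B₀)) fun ω _ => by simp,
      sum_mul, mul_sum]
    refine sum_le_sum fun η hη => ?_
    obtain ⟨ω₀, -, rfl⟩ := mem_image.1 hη
    exact key ω₀

theorem geom {b : ℕ → ℕ} {N : ℕ} (h : ∀ l, b l * 2 ^ (l + 1) ≤ N) (H : ℕ) :
    (∑ l ∈ range H, b l) * 2 ^ H + N ≤ N * 2 ^ H := by
  induction H with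
  | zero => simp
  | succ H ih =>
    have := h H
    rw [sum_range_succ, pow_succ] at *
    nlinarith

/-- One choice of hidden elements is good for all members of small families. -/
theorem exists_good [∀ v, Nonempty (S v)] {δ : Type} (H : ℕ) (D : ℕ → Finset δ)
    (Φ : ℕ → δ → ((Σ v, S v) → Bool) → Prop) (B₀ : ℕ → δ → Set V) (k R s : ℕ → ℕ)
    (h1 : ∀ l, ∀ d ∈ D l, Narrow (k l) (Φ l d))
    (h2 : ∀ l, ∀ d ∈ D l, ∀ v, v ∉ B₀ l d → R l ≤ Fintype.card (S v))
    (h3 : ∀ l, 2 ^ (l + 1) * #(D l) * k l ^ s l ≤ R l ^ s l) (h4 : ∀ l, 0 < R l) :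
    ∃ ω : ∀ v, S v, ∀ l < H, ∀ d ∈ D l, ¬Bad (Φ l d) (B₀ l d) (s l) ω := by
  by_contra h
  push Not at h
  let b : ℕ → ℕ := fun l => ∑ d ∈ D l, #(univ.filter (Bad (Φ l d) (B₀ l d) (s l)))
  have a1 : ∀ l, b l * 2 ^ (l + 1) ≤ #(univ : Finset (∀ v, S v)) := fun l => by
    have a2 := sum_le_card_nsmul _ _ _ fun d (hd : d ∈ D l) =>
      chain (h1 l d hd) (s l) (B₀ l d) (h2 l d hd) univ fun _ _ _ _ => mem_univ _
    rw [← sum_mul, smul_eq_mul] at a2
    refine Nat.le_of_mul_le_mul_right ?_ (pow_pos (h4 l) (s l))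
    calc b l * 2 ^ (l + 1) * R l ^ s l = 2 ^ (l + 1) * (b l * R l ^ s l) := by ring
      _ ≤ 2 ^ (l + 1) * (#(D l) * (k l ^ s l * #(univ : Finset (∀ v, S v)))) :=
        Nat.mul_le_mul_left _ a2
      _ = #(univ : Finset (∀ v, S v)) * (2 ^ (l + 1) * #(D l) * k l ^ s l) := by ring
      _ ≤ _ := Nat.mul_le_mul_left _ (h3 l)
  have a3 : (univ : Finset (∀ v, S v)) ⊆ (range H).biUnion fun l => (D l).biUnion fun d =>
      univ.filter (Bad (Φ l d) (B₀ l d) (s l)) := fun ω _ => by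
    obtain ⟨l, hl, d, hd, hb⟩ := h ω
    exact mem_biUnion.2 ⟨l, mem_range.2 hl, mem_biUnion.2 ⟨d, hd, mem_filter.2 ⟨mem_univ _, hb⟩⟩⟩
  have a4 : #(univ : Finset (∀ v, S v)) ≤ ∑ l ∈ range H, b l :=
    (card_le_card a3).trans (card_biUnion_le.trans (sum_le_sum fun l _ => card_biUnion_le))
  have a5 := geom a1 H
  have a6 := Nat.mul_le_mul_right (2 ^ H) a4
  have a7 : 0 < #(univ : Finset (∀ v, S v)) := card_pos.2 univ_nonempty
  omega

end Pool.Agent.Lib.MP_cb4cf2_lc.AE
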