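import Pool.Agent.Lib.MP_cb4cf2_lc.Inj1

/-! A finite injury argument: all requirements are met by one table. -/

namespace Pool.Agent.Lib.MP_cb4cf2_lc.AE

open Finset Classical

set_option linter.unusedSectionVars false

variable {P : Type} [Fintype P] {W : P → Type} (g : P → ℕ) (Q : ℕ → ℕ)

noncomputable def cnt (α : ∀ ρ, Option (W ρ)) (j : ℕ) : ℕ :=
  #(univ.filter fun ρ => g ρ = j ∧ α ρ ≠ none)

/-- The epoch of the group `j` in the state `α`. -/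
noncomputable def ep (α : ∀ ρ, Option (W ρ)) : ℕ → ℕ
  | 0 => 0
  | j + 1 => ep α j * (Q j + 1) + cnt g α j

def EB : ℕ → ℕ
  | 0 => 1
  | j + 1 => EB j * (Q j + 1)

noncomputable def act (α : ∀ ρ, Option (W ρ)) (ρ : P) (w : W ρ) : ∀ ρ', Option (W ρ') :=
  fun ρ' => if g ρ' ≤ g ρ then Function.update α ρ (some w) ρ' else none

variable {g Q}

theorem cnt_le (hQ : ∀ j, #(univ.filter fun ρ => g ρ = j) ≤ Q j) (α : ∀ ρ, Option (W ρ)) (j : ℕ) :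
    cnt g α j ≤ Q j :=
  (card_le_card fun _ h => mem_filter.2 ⟨mem_univ _, (mem_filter.1 h).2.1⟩).trans (hQ j)

theorem ep_lt (hQ : ∀ j, #(univ.filter fun ρ => g ρ = j) ≤ Q j) (α : ∀ ρ, Option (W ρ)) :
    ∀ j, ep g Q α j < EB Q j
  | 0 => Nat.one_pos
  | j + 1 => by
    have h1 := Nat.mul_le_mul_right (Q j + 1) (Nat.succ_le_of_lt (ep_lt hQ α j))
    have h2 := cnt_le hQ α j
    simp only [ep, EB]
    rw [Nat.succ_mul] at h1
    omega

theorem act_of_ne {α : ∀ ρ, Option (W ρ)} {ρ ρ' : P} (w : W ρ) (h1 : g ρ' ≤ g ρ) (h2 : ρ' ≠ ρ) :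
    act g α ρ w ρ' = α ρ' := by
  rw [act, if_pos h1, Function.update_of_ne h2]

theorem act_self (α : ∀ ρ, Option (W ρ)) {ρ : P} (w : W ρ) : act g α ρ w ρ = some w := by
  rw [act, if_pos le_rfl, Function.update_self]

theorem ep_act_le (α : ∀ ρ, Option (W ρ)) {ρ : P} (w : W ρ) :
    ∀ j, j ≤ g ρ → ep g Q (act g α ρ w) j = ep g Q α j
  | 0, _ => rfl
  | j + 1, h => by
    have : cnt g (act g α ρ w) j = cnt g α j := congrArg card (filter_congr fun ρ' _ =>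
      and_congr_right fun e => by
        rw [act_of_ne w (by omega) fun e' => by subst e'; omega])
    simp only [ep, ep_act_le α w j (by omega), this]

theorem ep_act_gt (hQ : ∀ j, #(univ.filter fun ρ => g ρ = j) ≤ Q j) {α : ∀ ρ, Option (W ρ)}
    {ρ : P} (w : W ρ) (h0 : α ρ = none) : ∀ j, g ρ < j → ep g Q α j < ep g Q (act g α ρ w) j
  | 0, h => absurd h (Nat.not_lt_zero _)
  | j + 1, h => by
    simp only [ep]
    rcases (Nat.le_of_lt_succ h).eq_or_lt with e | e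
    · rw [ep_act_le α w j e.ge]
      refine Nat.add_lt_add_left (card_lt_card ⟨fun ρ' h1 => ?_, fun h1 => ?_⟩) _
      · obtain ⟨-, h2, h3⟩ := mem_filter.1 h1
        refine mem_filter.2 ⟨mem_univ _, h2, ?_⟩
        rwa [act_of_ne (ρ' := ρ') w (by omega) fun e' => h3 (by subst e'; exact h0)]
      · exact (mem_filter.1 (h1 (mem_filter.2 ⟨mem_univ ρ, e, by simp [act_self]⟩))).2.2 h0
    · have h1 := Nat.mul_le_mul_right (Q j + 1) (Nat.succ_le_of_lt (ep_act_gt hQ w h0 j e))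
      have h2 := cnt_le hQ α j
      rw [Nat.succ_mul] at h1
      omega

variable {X : Type} {Bk Sl : X → Type}

abbrev Tb (Bk Sl : X → Type) := (Σ v : Σ x, Bk x, Sl v.1) → Bool

def Full (t : Tb Bk Sl) (x : X) : Prop := ∀ b, ∃ μ, t ⟨⟨x, b⟩, μ⟩ = true

def Sparse (t : Tb Bk Sl) (x : X) (s : ℕ) : Prop := {b | ∃ μ, t ⟨⟨x, b⟩, μ⟩ = true}.ncard ≤ s

noncomputable def mask (K : Set (Σ x, Bk x)) (t : Tb Bk Sl) : Tb Bk Sl :=
  fun c => decide (c.1 ∈ K) && t c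

theorem mask_vw (K B : Set (Σ x, Bk x)) (ω : ∀ v : Σ x, Bk x, Sl v.1) :
    mask K (vw B ω) = vw (B ∩ K) ω := by
  funext c
  by_cases h : c.1 ∈ K <;> simp [mask, vw, h]

variable (g Q) in
def Wiped (pt : P → ℕ → X) (α : ∀ ρ, Option (W ρ)) (x : X) : Prop :=
  ∃ ρ e, x = pt ρ e ∧ (e < ep g Q α (g ρ) ∨ e = ep g Q α (g ρ) ∧ α ρ ≠ none)

variable (g Q) in
def Phi (φ : ∀ ρ, ℕ → W ρ → Tb Bk Sl → Prop) (α : ∀ ρ, Option (W ρ)) (t : Tb Bk Sl) : Prop :=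
  ∀ ρ w, α ρ = some w → φ ρ (ep g Q α (g ρ)) w t

theorem narrow_Phi {φ : ∀ ρ, ℕ → W ρ → Tb Bk Sl → Prop} {α : ∀ ρ, Option (W ρ)} {k : ℕ}
    (h : ∀ ρ e w, α ρ = some w → Narrow k (φ ρ e w)) (K : Set (Σ x, Bk x)) :
    Narrow k fun t => Phi g Q φ α (mask K t) := by
  intro t ht
  simp only [Phi, not_forall] at ht
  obtain ⟨ρ, w, h1, h2⟩ := ht
  obtain ⟨F, h3, h4⟩ := h ρ _ w h1 _ h2
  exact ⟨F, h3, fun t' h5 h6 => h4 _ (fun c hc => by simp only [mask, h5 c hc]) (h6 ρ w h1)⟩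

theorem injury [Fintype X] [∀ x, Fintype (Bk x)] [∀ x, Fintype (Sl x)] [∀ x, Nonempty (Sl x)]
    [∀ ρ, Fintype (W ρ)] (grp : X → ℕ) (pt : P → ℕ → X) (φ : ∀ ρ, ℕ → W ρ → Tb Bk Sl → Prop)
    (k R s w q b : ℕ → ℕ) (hg : ∀ ρ e, grp (pt ρ e) = g ρ)
    (hinj : ∀ ρ e ρ' e', e < EB Q (g ρ) → e' < EB Q (g ρ') → pt ρ e = pt ρ' e' → ρ = ρ' ∧ e = e')
    (hQ : ∀ j, #(univ.filter fun ρ => g ρ = j) ≤ Q j)
    (hφ : ∀ ρ e y l, g ρ ≤ l → Narrow (k l) (φ ρ e y)) (hs : Monotone s)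
    (hR : ∀ x l, l ≤ grp x → (∃ ρ, g ρ = l) → R l ≤ Fintype.card (Sl x)) (hR0 : ∀ l, 0 < R l)
    (hw : ∀ ρ l, g ρ ≤ l → Fintype.card (W ρ) + 1 ≤ w l)
    (hq : ∀ l, #(univ.filter fun ρ => g ρ ≤ l) ≤ q l)
    (hb : ∀ l, #(univ.filter fun v : Σ x, Bk x => grp v.1 < l) ≤ b l)
    (hnum : ∀ ρ, 2 ^ (g ρ + 1) * (w (g ρ) ^ q (g ρ) * 2 ^ b (g ρ)) * k (g ρ) ^ s (g ρ) ≤
      R (g ρ) ^ s (g ρ)) :
    ∃ t : Tb Bk Sl, (∀ x, Full t x ∨ Sparse t x (s (grp x)) ∧ ∃ ρ e, x = pt ρ e) ∧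
      ∀ ρ, ∃ e, Full t (pt ρ e) ∧ (¬∃ y, φ ρ e y t) ∨
        Sparse t (pt ρ e) (s (g ρ)) ∧ ∃ y, φ ρ e y t := by
  obtain ⟨H, hH⟩ : ∃ H, ∀ ρ, g ρ < H :=
    ⟨univ.sup g + 1, fun ρ => Nat.lt_succ_of_le (le_sup (mem_univ ρ))⟩
  let D : ℕ → Finset ((∀ ρ, Option (W ρ)) × Finset (Σ x, Bk x)) := fun l =>
    if ∃ ρ, g ρ = l then (Fintype.piFinset fun ρ => if g ρ ≤ l then univ else {none}) ×ˢ
      (univ.filter fun v : Σ x, Bk x => grp v.1 < l).powerset else ∅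
  have hD : ∀ l, ∀ d ∈ D l, (∃ ρ, g ρ = l) ∧ ∀ ρ y, d.1 ρ = some y → g ρ ≤ l := fun l d hd => by
    by_cases h : ∃ ρ, g ρ = l
    · refine ⟨h, fun ρ y e => by_contra fun h1 => ?_⟩
      simp only [D, if_pos h, mem_product, Fintype.mem_piFinset] at hd
      have := hd.1 ρ
      rw [if_neg h1, e] at this
      simp at this
    · simp [D, if_neg h] at hd
  obtain ⟨ω, hω⟩ := exists_good (S := fun v : Σ x, Bk x => Sl v.1) H D
    (fun l d t => Phi g Q φ d.1 (mask {v | grp v.1 < l → v ∈ d.2} t))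
    (fun l d => {v | grp v.1 < l ∨ ¬Wiped g Q pt d.1 v.1}) k R s
    (fun l d hd => narrow_Phi (fun ρ e y h => hφ ρ e y l ((hD l d hd).2 ρ y h)) _)
    (fun l d hd v hv => hR _ l (not_lt.1 fun h => hv (Or.inl h)) (hD l d hd).1)
    (fun l => by
      by_cases h : ∃ ρ, g ρ = l
      · obtain ⟨ρ, rfl⟩ := h
        refine le_trans (Nat.mul_le_mul_right _ (Nat.mul_le_mul_left _ ?_)) (hnum ρ)
        simp only [D, if_pos (⟨ρ, rfl⟩ : ∃ ρ', g ρ' = g ρ), card_product, card_powerset,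
          Fintype.card_piFinset]
        refine Nat.mul_le_mul ?_ (Nat.pow_le_pow_right (by norm_num) (hb _))
        rw [← prod_filter_mul_prod_filter_not univ fun ρ' => g ρ' ≤ g ρ,
          prod_eq_one (s := univ.filter fun ρ' => ¬g ρ' ≤ g ρ) fun ρ' h => by
            rw [if_neg (mem_filter.1 h).2, card_singleton], mul_one]
        refine (prod_le_pow_card _ _ (w (g ρ)) fun ρ' h => ?_).trans (Nat.pow_le_pow_right
          (Nat.lt_of_lt_of_le (Nat.succ_pos _) (hw ρ _ le_rfl)) (hq _))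
        rw [if_pos (mem_filter.1 h).2, card_univ, Fintype.card_option]
        exact hw _ _ (mem_filter.1 h).2
      · simp [D, if_neg h]) hR0
  let Valid : (∀ ρ, Option (W ρ)) × Set (Σ x, Bk x) → Prop := fun p =>
    (∀ x, ¬Wiped g Q pt p.1 x → ∀ b, ⟨x, b⟩ ∈ p.2) ∧
      (∀ x, Wiped g Q pt p.1 x → {b | ⟨x, b⟩ ∈ p.2}.ncard ≤ s (grp x)) ∧ Phi g Q φ p.1 (vw p.2 ω)
  have v0 : Valid (fun _ => none, Set.univ) := by
    have e0 : ∀ j, ep g Q (fun ρ => (none : Option (W ρ))) j = 0 := fun j => by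
      induction j with
      | zero => rfl
      | succ j ih => simp [ep, ih, cnt]
    exact ⟨fun _ _ _ => trivial, fun x ⟨ρ, e, _, h⟩ => by simp [e0] at h, fun ρ y h => by simp at h⟩
  obtain ⟨⟨α, B⟩, ⟨a1, a2, a3⟩, hmax⟩ := Set.exists_max_image {p | Valid p}
    (fun p => ep g Q p.1 H) (Set.toFinite _) ⟨_, v0⟩
  simp only at a1 a2 a3 hmax
  have f1 : ∀ x, ¬Wiped g Q pt α x → Full (vw B ω) x := fun x h b => ⟨_, vw_iff.2 ⟨a1 x h b, rfl⟩⟩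
  have f2 : ∀ x, Wiped g Q pt α x → Sparse (vw B ω) x (s (grp x)) := fun x h =>
    le_trans (Set.ncard_le_ncard (fun b hb => hb.elim fun _ hb => (vw_iff.1 hb).1)
      (Set.toFinite _)) (a2 x h)
  refine ⟨vw B ω, fun x => ?_, fun ρ => ⟨ep g Q α (g ρ), ?_⟩⟩
  · by_cases h : Wiped g Q pt α x
    · exact Or.inr ⟨f2 x h, h.imp fun _ h => h.imp fun _ h => h.1⟩
    · exact Or.inl (f1 x h)
  rcases h0 : α ρ with _ | y
  swap
  · have := f2 _ ⟨ρ, _, rfl, Or.inr ⟨rfl, by simp [h0]⟩⟩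
    rw [hg] at this
    exact Or.inr ⟨this, y, a3 ρ y h0⟩
  refine Or.inl ⟨f1 _ ?_, ?_⟩
  · rintro ⟨ρ', e, h1, h2⟩
    obtain ⟨rfl, rfl⟩ := hinj _ _ _ _ (ep_lt hQ α _)
      (Nat.lt_of_le_of_lt (h2.elim le_of_lt fun h => h.1.le) (ep_lt hQ α _)) h1
    exact h2.elim (lt_irrefl _) fun h => h.2 h0
  rintro ⟨y, hy⟩
  set α' := act g α ρ y
  have w1 : ∀ x, Wiped g Q pt α x → Wiped g Q pt α' x := by
    rintro x ⟨ρ', e, h1, h2⟩
    refine ⟨ρ', e, h1, ?_⟩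
    by_cases h3 : g ρ' ≤ g ρ
    · rw [ep_act_le α y _ h3]
      exact h2.imp_right fun h => ⟨h.1, by
        rw [show α' ρ' = α ρ' from act_of_ne y h3 fun e' => h.2 (e' ▸ h0)]; exact h.2⟩
    · exact Or.inl (Nat.lt_of_le_of_lt (h2.elim le_of_lt fun h => h.1.le)
        (ep_act_gt hQ y h0 _ (not_le.1 h3)))
  have w2 : ∀ x, grp x < g ρ → Wiped g Q pt α' x → Wiped g Q pt α x := by
    rintro x hx ⟨ρ', e, rfl, h2⟩
    rw [hg] at hx
    rw [ep_act_le α y _ hx.le, show α' ρ' = α ρ' from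
      act_of_ne y hx.le fun e' => by subst e'; omega] at h2
    exact ⟨ρ', e, rfl, h2⟩
  let U : Finset (Σ x, Bk x) := univ.filter fun v => grp v.1 < g ρ ∧ v ∈ B
  have hd : (α', U) ∈ D (g ρ) := by
    simp only [D, if_pos (⟨ρ, rfl⟩ : ∃ ρ', g ρ' = g ρ), mem_product, Fintype.mem_piFinset,
      mem_powerset]
    refine ⟨fun ρ' => ?_, fun v hv => mem_filter.2 ⟨mem_univ _, (mem_filter.1 hv).2.1⟩⟩
    by_cases h : g ρ' ≤ g ρ
    · simp [h]
    · simp [h, α', act]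
  have hbad := hω _ (hH ρ) _ hd
  simp only [Bad, not_exists, not_and, not_forall, not_not, mask_vw] at hbad
  obtain ⟨T, t1, t2, t3⟩ := hbad (B ∪ {v | grp v.1 < g ρ})
    (fun v hv => hv.elim Or.inr fun h => Or.inl (a1 _ (fun h1 => h (w1 _ h1)) _)) (by
      rw [show (B ∪ {v | grp v.1 < g ρ}) ∩ {v | grp v.1 < g ρ → v ∈ U} = B from
        Set.ext fun v => by by_cases h : grp v.1 < g ρ <;> simp [U, h]]
      intro ρ' y' h
      have h3 := (hD _ _ hd).2 ρ' y' h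
      rw [ep_act_le α y _ h3]
      by_cases e : ρ' = ρ
      · subst e
        obtain rfl : y = y' := Option.some.inj ((act_self α y).symm.trans h)
        exact hy
      · exact a3 ρ' y' ((act_of_ne y h3 e).symm.trans h))
  refine absurd (hmax (α', ({v | grp v.1 < g ρ ∨ ¬Wiped g Q pt α' v.1} ∪ ↑T) ∩
    {v | grp v.1 < g ρ → v ∈ U}) ⟨fun x hx b => ⟨Or.inl (Or.inr hx), fun h => ?_⟩,
      fun x hx => ?_, t3⟩) (not_le.2 (ep_act_gt hQ y h0 _ (hH ρ)))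
  · exact mem_filter.2 ⟨mem_univ _, h, a1 _ (fun h1 => hx (w1 _ h1)) _⟩
  by_cases h : grp x < g ρ
  · exact (Set.ncard_le_ncard (fun b hb => (mem_filter.1 (hb.2 h)).2.2) (Set.toFinite _)).trans
      (a2 x (w2 x h hx))
  · refine le_trans (Set.ncard_le_ncard_of_injOn (t := ↑T) (Sigma.mk x) (fun b hb => ?_)
      sigma_mk_injective.injOn (Set.toFinite _)) ?_
    · exact hb.1.resolve_left fun h1 => h1.elim h fun h2 => h2 hx
    · rw [Set.ncard_coe_finset]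
      exact t2.le.trans (hs (not_lt.1 h))

end Pool.Agent.Lib.MP_cb4cf2_lc.AE
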