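import Pool.Agent.Lib.MP_cb4cf2_lc.Sound

/-! The protocol is correct for every oracle; its language avoids the second level for a residual
set of oracles. -/

namespace Pool.Agent.Lib.MP_cb4cf2_lc

open Pool.Agent.Lib.helper82 Classical Function Filter Topology

theorem count_le {K d n P : ℕ} (h : K * d * n ≤ P) (I : Set (Blk (Fin d) (Fin n))) :
    Set.ncard {r : Fin P → Bool | ∀ a : Fin K, blkF (List.ofFn r) d n a ∈ I} ≤
      I.ncard ^ K * 2 ^ (P - K * d * n) := by
  let e : (Fin K × Fin d) × Fin n ↪ Fin P :=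
    ((finProdFinEquiv.prodCongr (Equiv.refl _)).trans finProdFinEquiv).toEmbedding.trans
      (Fin.castLEEmb h)
  have h1 : ∀ (r : Fin P → Bool) (a : Fin K) i t,
      blkF (List.ofFn r) d n a i t = r (e ((a, i), t)) := fun r a i t =>
    getD_ofFn r (e ((a, i), t)) false
  let Φ : (Fin P → Bool) → (Fin K → Blk (Fin d) (Fin n)) × (↥(Set.range e)ᶜ → Bool) :=
    fun r => (fun a => blkF (List.ofFn r) d n a, fun q => r q)
  have h2 := Set.ncard_le_ncard_of_injOn
    (s := {r : Fin P → Bool | ∀ a : Fin K, blkF (List.ofFn r) d n a ∈ I})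
    (t := ↑((Fintype.piFinset fun _ : Fin K => I.toFinset) ×ˢ
      (Finset.univ : Finset (↥(Set.range e)ᶜ → Bool)))) Φ
    (fun r hr => by simpa [Φ] using hr) (fun r _ r' _ hr => funext fun q => by
      by_cases hq : q ∈ Set.range e
      · obtain ⟨⟨⟨a, i⟩, t⟩, rfl⟩ := hq
        exact (h1 r a i t).symm.trans
          ((congrFun (congrFun (congrFun (congrArg Prod.fst hr) a) i) t).trans (h1 r' a i t))
      · exact congrFun (congrArg Prod.snd hr) ⟨q, hq⟩) (Finset.finite_toSet _)
  rw [Set.ncard_coe_finset, Finset.card_product, Fintype.card_piFinset_const, Finset.card_univ,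
    Fintype.card_fun, Fintype.card_compl_set, Fintype.card_range,
    ← Set.ncard_eq_toFinset_card'] at h2
  simpa using h2

theorem density' {κ ι : Type} [Fintype κ] [Fintype ι] {A : Set (Blk κ ι)} (hA : Cl hd pr A)
    {v : Blk κ ι} (hv : v ∉ A) : A.ncard + Aᶜ.ncard ≤ 2 ^ Fintype.card κ * Aᶜ.ncard := by
  have := density hA hv
  rw [← Nat.card_eq_fintype_card, ← Set.ncard_add_ncard_compl A,
    ← Set.ncard_coe_finset, Finset.coe_filter_univ] at this
  exact this

theorem three_mul_pow_le {s m D K : ℕ} (h : s + m ≤ D * m) (hD : 0 < D) (hK : 2 * D ≤ K) :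
    3 * s ^ K ≤ (s + m) ^ K := by
  refine le_trans ?_ (pow_add_mul_le_add_pow (Nat.zero_le s) (Nat.zero_le _) K)
  obtain ⟨k, rfl⟩ : ∃ k, K = k + 1 := ⟨K - 1, by omega⟩
  have h1 : 2 * s ≤ (k + 1) * m := by nlinarith [Nat.mul_le_mul_right m hK]
  have h2 := Nat.mul_le_mul_left (s ^ k) h1
  simp only [Nat.cast_id, Nat.add_sub_cancel, pow_succ]
  nlinarith

theorem two_pow_size_le (n : ℕ) : 2 ^ n.size ≤ 2 * n + 2 := by
  rcases h : n.size with _ | s
  · omega
  · have := Nat.lt_size.1 (show s < n.size by omega)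
    omega

theorem exists_AM : ∃ (V : OM) (p : Polynomial ℕ), ∀ A, AMvia V p A (Lang A) := by
  obtain ⟨V, msg, h1, h2⟩ := exists_verifier
  refine ⟨V, 100 * (Polynomial.X + 1) ^ 3, fun A x => ?_⟩
  have hP : (100 * (Polynomial.X + 1) ^ 3 : Polynomial ℕ).eval x.length =
      100 * (x.length + 1) ^ 3 := by simp
  unfold OM.prob
  generalize (100 * (Polynomial.X + 1) ^ 3 : Polynomial ℕ).eval x.length = P at hP
  refine ⟨fun hx => ?_, fun hx => ?_⟩
  · rw [Set.eq_univ_of_forall (s := {r : Fin P → Bool | _}) fun r => ?_]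
    · rw [Set.ncard_univ, Nat.card_eq_fintype_card, Fintype.card_fun, Fintype.card_bool,
        Fintype.card_fin, Nat.cast_pow, Nat.cast_ofNat, div_self (by positivity)]
      norm_num
    · obtain ⟨m, a1, a2⟩ := exists_msg hx (List.ofFn r)
      obtain ⟨y, hy⟩ := exists_ofFn (n := P) (l := N487b59b3.delimit (enc m) ++
        List.replicate (P - (2 * sz m + 1)) false) (by
          rw [List.length_append, N487b59b3.length_delimit, List.length_replicate]
          change 2 * sz m + 1 + _ = _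
          omega)
      exact ⟨y, (h2 _ _ _ _).2 (by rw [← hy, h1]; exact a2)⟩
  · obtain ⟨b1, b2⟩ := not_or.1 hx
    obtain ⟨v, hv⟩ := not_forall.1 b2
    have h0 : x.length.size ≤ x.length := Nat.size_le.2 Nat.lt_two_pow_self
    have c1 : (4 * x.length + 4) * x.length.size * x.length ≤ P := by
      refine (Nat.mul_le_mul_right _ (Nat.mul_le_mul_left _ h0)).trans ?_
      rw [hP]
      nlinarith [Nat.zero_le (x.length ^ 3), Nat.zero_le (x.length ^ 2)]
    have c4 := count_le c1 {j | ∃ μ, tab A x (.inl (j, μ)) = true}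
    have c5 := three_mul_pow_le (K := 4 * x.length + 4)
      (density' (cl_of_not_viol hd pr b1) (v := v) hv) (by positivity)
      (by have := two_pow_size_le x.length; rw [Fintype.card_fin]; omega)
    rw [Set.ncard_add_ncard_compl, Nat.card_eq_fintype_card, Fintype.card_fun, Fintype.card_fun,
      Fintype.card_bool, Fintype.card_fin, Fintype.card_fin, ← pow_mul, ← pow_mul] at c5
    have c0 : {r : Fin P → Bool | ∃ y : Fin P → Bool, V.Acc A x (List.ofFn r) (List.ofFn y)} ⊆
        {r | ∀ a : Fin (4 * x.length + 4), blkF (List.ofFn r) x.length.size x.length a ∈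
          {j | ∃ μ, tab A x (.inl (j, μ)) = true}} := by
      rintro r ⟨y, hy⟩ a
      obtain ⟨d1, d2⟩ := (h2 _ _ _ _).1 hy
      cases d0 : (msg (List.ofFn y)).1
      · exact all_of d0 d1 d2 a
      · exact absurd (viol_of d0 d1 d2) b1
    have c6 := (Set.ncard_le_ncard c0 (Set.toFinite _)).trans c4
    have c7 := (Nat.mul_le_mul_left 3 c6).trans ((mul_assoc _ _ _).ge.trans
      (Nat.mul_le_mul_right _ c5))
    rw [← pow_add, show x.length * (x.length.size * (4 * x.length + 4)) =
      (4 * x.length + 4) * x.length.size * x.length by ring, Nat.add_sub_cancel' c1] at c7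
    rw [div_le_div_iff₀ (by positivity) (by norm_num), one_mul, mul_comm]
    exact_mod_cast c7

theorem exists_len (p q : Polynomial ℕ) (N : ℕ) : ∃ n, N ≤ n ∧
    2 ^ q.eval n * p.eval (n + q.eval n + q.eval n) ^ n ^ n.size < (2 ^ n) ^ n ^ n.size := by
  obtain ⟨e, he⟩ := Bd.le_pow (T := fun n => 2 * (p.eval (n + q.eval n + q.eval n) + 1))
    ((Bd.const 2).mul ((((Bd.self.add (Bd.self.eval q)).add (Bd.self.eval q)).eval p).add
      (Bd.const 1)))
  obtain ⟨e', he'⟩ := Bd.le_pow (T := fun n => q.eval n + 1) ((Bd.self.eval q).add (Bd.const 1))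
  obtain ⟨j, h1, h2, h3, h4⟩ : ∃ j, e ≤ j ∧ e' ≤ j ∧ N ≤ j ∧ 1 ≤ j :=
    ⟨e + e' + N + 1, by omega, by omega, by omega, by omega⟩
  have a0 : 2 * j < 2 ^ (2 * j) := Nat.lt_two_pow_self
  have a1 : (2 ^ (2 * j)) ^ e ≤ 2 ^ 2 ^ (2 * j) := by
    rw [← pow_mul]
    refine Nat.pow_le_pow_right (by norm_num) ?_
    nlinarith [Nat.two_mul_sq_add_one_le_two_pow_two_mul j]
  have a2 : (2 ^ (2 * j)) ^ e' ≤ (2 ^ (2 * j)) ^ (2 ^ (2 * j)).size :=
    Nat.pow_le_pow_right (by positivity) (by rw [Nat.size_pow]; omega)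
  refine ⟨2 ^ (2 * j), by omega, ?_⟩
  have a3 := (he _ (by omega)).trans a1
  have a4 := (he' _ (by omega)).trans a2
  generalize 2 ^ (2 * j) = n at a3 a4
  generalize n ^ n.size = m at a4
  refine lt_of_lt_of_le ?_ (Nat.pow_le_pow_left a3 m)
  rw [mul_pow]
  exact Nat.mul_lt_mul_of_lt_of_le (Nat.pow_lt_pow_right (by norm_num) a4)
    (Nat.pow_le_pow_left (Nat.le_succ _) m) (by positivity)

/-- The oracles for which the machine fails to define the language. -/
def Miss (M : OM) (q : Polynomial ℕ) : Set (Str → Bool) :=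
  {A | ∃ x, ¬(x ∈ Lang A ↔ ∃ y : Fin (q.eval x.length) → Bool,
    ∀ z : Fin (q.eval x.length) → Bool, M.Acc A x (List.ofFn y) (List.ofFn z))}

theorem isOpen_miss (M : OM) (q : Polynomial ℕ) : IsOpen (Miss M q) := by
  refine isOpen_iff_eventually.2 fun A ⟨x, hx⟩ => ?_
  have h1 : ∀ᶠ A' in 𝓝 A, ∀ c, tab A' x c = tab A x c :=
    eventually_all.2 fun c => eventually_eq_at A _
  have h2 : ∀ᶠ A' in 𝓝 A, ∀ y z : Fin (q.eval x.length) → Bool,
      (M.Acc A' x (List.ofFn y) (List.ofFn z) ↔ M.Acc A x (List.ofFn y) (List.ofFn z)) :=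
    eventually_all.2 fun y => eventually_all.2 fun z => M.eventually_acc A _ _ _
  refine (h1.and h2).mono fun A' h => ⟨x, ?_⟩
  have h3 : x ∈ Lang A' ↔ x ∈ Lang A := iff_of_eq (congrArg (Fn hd pr) (funext h.1))
  simpa only [h3, h.2] using hx

theorem exists_miss (M : OM) (q : Polynomial ℕ) (H : Str → Bool) (N : ℕ) :
    ∃ A ∈ Miss M q, ∀ s : Str, s.length < N → A s = H s := by
  obtain ⟨n, h1, h2⟩ := exists_len M.rounds q N
  obtain ⟨x, rfl⟩ : ∃ x : Str, x.length = n := ⟨List.replicate n true, by simp⟩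
  have h3 := mt (core_tensor (κ := Fin x.length.size) (ι := Fin x.length)
    (W := Fin (q.eval x.length) → Bool) fun w => narrow_all M (code_injective x) H x (List.ofFn w)
      (fun z : Fin (q.eval x.length) → Bool => List.ofFn z)
      (k := M.rounds.eval (x.length + q.eval x.length + q.eval x.length)) fun z => by simp)
    (by simpa using h2)
  obtain ⟨t, ht⟩ := not_forall.1 h3
  refine ⟨extend (code x) t H, ⟨x, ?_⟩, fun s hs => extend_apply' _ _ _ ?_⟩
  · have h4 : tab (extend (code x) t H) x = t := funext fun c =>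
      (code_injective x).extend_apply _ _ _
    change ¬(Fn hd pr _ ↔ _)
    rwa [h4]
  · rintro ⟨c, rfl⟩
    have := length_code x c
    omega

theorem dense_miss (M : OM) (q : Polynomial ℕ) : Dense (Miss M q) := fun H => by
  choose A h1 h2 using exists_miss M q H
  refine mem_closure_of_tendsto (b := atTop) (f := A) (tendsto_pi_nhds.2 fun s => ?_)
    (Eventually.of_forall h1)
  exact tendsto_const_nhds.congr' ((eventually_gt_atTop s.length).mono fun N hN => (h2 N s hN).symm)

theorem generic : ∀ᶠ A in residual (Str → Bool), Lang A ∉ Sigma2 A := by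
  have := countable_OM
  have := countable_poly
  have h : ∀ᶠ A in residual (Str → Bool), ∀ p : OM × Polynomial ℕ, A ∈ Miss p.1 p.2 :=
    eventually_countable_forall.2 fun p => residual_of_dense_open (isOpen_miss _ _) (dense_miss _ _)
  refine h.mono fun A hA ⟨M, q, hM⟩ => ?_
  obtain ⟨x, hx⟩ := hA (M, q)
  exact hx (hM x)

end Pool.Agent.Lib.MP_cb4cf2_lc
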