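import Pool.Agent.Lib.MP_cb4cf2_lc.Ver

/-! The verifier: meaning of the checks. -/

namespace Pool.Agent.Lib.MP_cb4cf2_lc

open Pool.Agent.Lib.helper82 Classical Function

theorem map_range_eq {β : Type} (n : ℕ) (f : ℕ → β) :
    (List.range n).map f = List.ofFn fun i : Fin n => f i :=
  List.ext_getElem (by simp) fun i _ _ => by simp

theorem exists_ofFn {β : Type} {n : ℕ} {l : List β} (h : l.length = n) :
    ∃ f : Fin n → β, l = List.ofFn f := by
  subst h
  exact ⟨l.get, (List.ofFn_get l).symm⟩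

theorem getD_ofFn {β : Type} {n : ℕ} (f : Fin n → β) (i : Fin n) (d : β) :
    (List.ofFn f).getD i d = f i := by simp

variable {d n : ℕ}

/-- The list of strings that names a block. -/
def cB (j : Blk (Fin d) (Fin n)) : List Str := List.ofFn fun i => List.ofFn (j i)

theorem cB_injective : Injective (cB : Blk (Fin d) (Fin n) → List Str) := fun _ _ e =>
  funext fun i => List.ofFn_injective (congrFun (List.ofFn_injective e) i)

theorem exists_cB {h : List Str} (h1 : h.length = d) (h2 : ∀ s ∈ h, s.length = n) :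
    ∃ j : Blk (Fin d) (Fin n), h = cB j := by
  obtain ⟨f, rfl⟩ := exists_ofFn h1
  choose g hg using fun i => exists_ofFn (h2 (f i) (List.mem_ofFn.2 ⟨i, rfl⟩))
  exact ⟨g, congrArg List.ofFn (funext hg)⟩

theorem getD_cB (j : Blk (Fin d) (Fin n)) (i : Fin d) : (cB j).getD i [] = List.ofFn (j i) :=
  getD_ofFn _ _ _

theorem setL_cB {_ : DecidableEq (Fin d)} (h : Blk (Fin d) (Fin n)) (i : Fin d) (a : Fin n → Bool) :
    setL (cB h) i (List.ofFn a) = cB (update h i a) := by
  rw [setL, cB, List.length_ofFn, map_range_eq]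
  refine congrArg List.ofFn (funext fun j => ?_)
  rw [getD_ofFn]
  by_cases e : j = i
  · simp [e]
  · rw [if_neg (Fin.val_ne_of_ne e), update_of_ne e]

theorem zx_ofFn (a b : Fin n → Bool) : zx (List.ofFn a) (List.ofFn b) = List.ofFn (a + b) := by
  rw [zx, List.length_ofFn, map_range_eq]
  refine congrArg List.ofFn (funext fun j => ?_)
  rw [getD_ofFn, getD_ofFn]
  rfl

/-- The block number `a` read from the random string. -/
def blkF (r : Str) (d n a : ℕ) : Blk (Fin d) (Fin n) :=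
  fun i t => r.getD (t + n * (i + d * a)) false

theorem blkL_eq (r : Str) (a : ℕ) : blkL r n d a = cB (blkF r d n a) := by
  simp only [blkL, map_range_eq]
  rfl

abbrev CellT (d n : ℕ) := Cell (Blk (Fin d) (Fin n)) (Rul (Fin d) (Fin n)) (Fin n)

/-- The oracle position of a cell of the table for the input `x`. -/
def code (x : Str) : CellT d n → Str
  | .inl p => k1 x (cB p.1) (List.ofFn p.2)
  | .inr q => k2 x (cB q.1.2.1) q.1.1 (List.ofFn q.1.2.2.1) (List.ofFn q.1.2.2.2) q.2.1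
      (List.ofFn q.2.2.1) q.2.2.2

theorem code_injective (x : Str) : Injective (code x : CellT d n → Str) := by
  rintro (⟨j, μ⟩ | ⟨⟨i, h, a, b⟩, c, μ, t⟩) (⟨j', μ'⟩ | ⟨⟨i', h', a', b'⟩, c', μ', t'⟩) e <;>
    have := enc_injective e <;>
    simp only [Prod.mk.injEq, cB_injective.eq_iff, List.ofFn_injective.eq_iff, Fin.val_inj] at this
  · obtain ⟨-, -, rfl, rfl, -⟩ := this; rfl
  · simp at this
  · simp at this
  · obtain ⟨-, -, rfl, rfl, rfl, rfl, rfl, rfl, rfl⟩ := this; rfl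

theorem length_code (x : Str) (c : CellT d n) : x.length ≤ (code x c).length := by
  have h : ∀ k : Bool × List Str × Str × ℕ × Str × Str × Bool × ℕ,
      x.length ≤ (enc ((x, k) : Key)).length := fun k => by
    have := sz_prod x k
    rw [PT.sz_listBool] at this
    change x.length ≤ sz (x, k)
    omega
  cases c <;> exact h _

/-- The table of the input `x`. -/
def tab (A : Str → Bool) (x : Str) : CellT x.length.size x.length → Bool := fun c => A (code x c)

/-- The language of the verifier. -/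
def Lang (A : Str → Bool) : Set Str := {x | Fn hd pr (tab A x)}

theorem reqV_iff (A : Str → Bool) (x : Str) (ρ : Rul (Fin x.length.size) (Fin x.length))
    (μ ν σ τ : Fin x.length → Bool) :
    (∀ q ∈ reqV x (cB ρ.2.1) ρ.1 (List.ofFn ρ.2.2.1) (List.ofFn ρ.2.2.2) (List.ofFn μ)
      (List.ofFn ν) (List.ofFn σ) (List.ofFn τ), A q.1 = q.2) ↔
    tab A x (.inl (pr ρ false, μ)) = true ∧ tab A x (.inl (pr ρ true, ν)) = true ∧
      tab A x (.inl (hd ρ, σ + τ)) = false ∧ shr (tab A x) ρ false μ = σ ∧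
        shr (tab A x) ρ true ν = τ := by
  have e1 : setL (cB ρ.2.1) ρ.1 (List.ofFn ρ.2.2.1) = cB (pr ρ false) := setL_cB _ _ _
  have e2 : setL (cB ρ.2.1) ρ.1 (List.ofFn ρ.2.2.2) = cB (pr ρ true) := setL_cB _ _ _
  have e3 : setL (cB ρ.2.1) ρ.1 (List.ofFn (ρ.2.2.1 + ρ.2.2.2)) = cB (hd ρ) := setL_cB _ _ _
  simp only [reqV, List.forall_mem_cons, List.forall_mem_append, map_range_eq,
    List.forall_mem_ofFn_iff, getD_ofFn, zx_ofFn, e1, e2, e3, funext_iff]
  rfl

theorem viol_of {A : Str → Bool} {x r : Str} {m : Msg} (h0 : m.1 = true) (h1 : okM x m = true)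
    (h2 : ∀ q ∈ reqM x r m, A q.1 = q.2) : Viol hd pr (tab A x) := by
  obtain ⟨c, i, h, l⟩ := m
  obtain rfl : c = true := h0
  simp only [okM, cond_true, Bool.and_eq_true, List.all_eq_true, decide_eq_true_eq] at h1
  obtain ⟨a1, a2, a3, a4, a5⟩ := h1
  obtain ⟨j, rfl⟩ := exists_cB a3 a4
  obtain ⟨f, rfl⟩ := exists_cB a2 a1
  obtain ⟨b1, b2, b3, b4, b5⟩ :=
    (reqV_iff A x (⟨i, a5⟩, j, f 0, f 1) (f 2) (f 3) (f 4) (f 5)).1 h2
  exact ⟨_, _, _, b1, b2, by rw [b4, b5]; exact b3⟩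

theorem all_of {A : Str → Bool} {x r : Str} {m : Msg} (h0 : m.1 = false) (h1 : okM x m = true)
    (h2 : ∀ q ∈ reqM x r m, A q.1 = q.2) (a : Fin (4 * x.length + 4)) :
    ∃ μ, tab A x (.inl (blkF r _ _ a, μ)) = true := by
  obtain ⟨c, i, h, l⟩ := m
  obtain rfl : c = false := h0
  simp only [okM, cond_false, Bool.and_eq_true, List.all_eq_true, decide_eq_true_eq] at h1
  obtain ⟨f, rfl⟩ := exists_cB h1.2 h1.1
  simp only [reqM, cond_false, reqA, map_range_eq, List.forall_mem_ofFn_iff, blkL_eq,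
    getD_cB] at h2
  exact ⟨f a, h2 a⟩

theorem sz_cB (j : Blk (Fin d) (Fin n)) : sz (cB j) ≤ d * (6 * n + 1) := by
  have := sz_le_of_forall (3 * n) (cB j) fun s hs => by
    obtain ⟨i, rfl⟩ := List.mem_ofFn.1 hs
    simp [PT.sz_listBool]
  rw [cB, List.length_ofFn, ← mul_assoc] at this
  exact this

theorem all_cB (j : Blk (Fin d) (Fin n)) : ∀ s ∈ cB j, s.length = n := fun s hs => by
  obtain ⟨i, rfl⟩ := List.mem_ofFn.1 hs
  simp

theorem exists_msg {A : Str → Bool} {x : Str} (hx : x ∈ Lang A) (r : Str) : ∃ m : Msg,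
    2 * sz m + 1 ≤ 100 * (x.length + 1) ^ 3 ∧ okM x m = true ∧ ∀ q ∈ reqM x r m, A q.1 = q.2 := by
  have h0 : x.length.size ≤ x.length := Nat.size_le.2 Nat.lt_two_pow_self
  rcases hx with ⟨ρ, μ, ν, h1, h2, h3⟩ | h
  · refine ⟨(true, ρ.1, cB ρ.2.1, cB ![ρ.2.2.1, ρ.2.2.2, μ, ν, shr (tab A x) ρ false μ,
      shr (tab A x) ρ true ν]), ?_, ?_, (reqV_iff A x ρ μ ν _ _).2 ⟨h1, h2, h3, rfl, rfl⟩⟩
    · rw [sz_prod, sz_prod, sz_prod, sz_bool]
      have a1 := (sz_nat_le_self ρ.1).trans (ρ.1.2.le.trans h0)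
      have a2 := (sz_cB ρ.2.1).trans (Nat.mul_le_mul_right _ h0)
      have a3 := sz_cB ![ρ.2.2.1, ρ.2.2.2, μ, ν, shr (tab A x) ρ false μ, shr (tab A x) ρ true ν]
      nlinarith [Nat.zero_le (x.length ^ 3), Nat.zero_le (x.length ^ 2)]
    · simp only [okM, cond_true, Bool.and_eq_true, List.all_eq_true, decide_eq_true_eq]
      exact ⟨all_cB _, List.length_ofFn, List.length_ofFn, all_cB _, ρ.1.2⟩
  · choose f hf using h
    refine ⟨(false, 0, [], cB fun a : Fin (4 * x.length + 4) => f (blkF r _ _ a)), ?_, ?_, ?_⟩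
    · rw [sz_prod, sz_prod, sz_prod, sz_bool, sz_nil]
      have a1 := sz_nat_le_self 0
      have a3 := sz_cB fun a : Fin (4 * x.length + 4) => f (blkF r _ _ a)
      nlinarith [Nat.zero_le (x.length ^ 3), Nat.zero_le (x.length ^ 2)]
    · simp only [okM, cond_false, Bool.and_eq_true, List.all_eq_true, decide_eq_true_eq]
      exact ⟨all_cB _, List.length_ofFn⟩
    · simp only [reqM, cond_false, reqA, map_range_eq, List.forall_mem_ofFn_iff, blkL_eq, getD_cB]
      exact fun a => hf _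

end Pool.Agent.Lib.MP_cb4cf2_lc
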