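import Pool.Agent.Lib.MP_cb4cf2_lc.Core

/-! The system of rules given by additivity in each coordinate. -/

namespace Pool.Agent.Lib.MP_cb4cf2_lc

open Finset Classical Function

abbrev Blk (κ ι : Type) := κ → ι → Bool

abbrev Rul (κ ι : Type) := κ × Blk κ ι × (ι → Bool) × (ι → Bool)

variable {κ ι : Type}

noncomputable def hd (ρ : Rul κ ι) : Blk κ ι := update ρ.2.1 ρ.1 (ρ.2.2.1 + ρ.2.2.2)

noncomputable def pr (ρ : Rul κ ι) (c : Bool) : Blk κ ι :=
  update ρ.2.1 ρ.1 (bif c then ρ.2.2.2 else ρ.2.2.1)

theorem exists_mix {A : Set (Blk κ ι)} (hA : Cl hd pr A) {v : Blk κ ι} (hv : v ∉ A)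
    (r : Blk κ ι) (T : Finset κ) : ∃ s : κ → Bool,
      (fun i => if i ∈ T then (bif s i then v i - r i else r i) else v i) ∉ A := by
  induction T using Finset.induction_on with
  | empty => exact ⟨fun _ => true, by simpa using hv⟩
  | insert i T hi ih =>
    obtain ⟨s, hs⟩ := ih
    by_contra h
    push Not at h
    have h1 : ∀ c, pr (i, (fun j => if j ∈ T then (bif s j then v j - r j else r j) else v j),
        r i, v i - r i) c ∈ A := fun c => by
      refine (congrArg (· ∈ A) (funext fun j => ?_)).mpr (h (update s i c))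
      by_cases e : j = i
      · subst e; simp [pr]
      · simp [pr, e]
    refine hs ((congrArg (· ∈ A) (funext fun j => ?_)).mp (hA _ (h1 false) (h1 true)))
    by_cases e : j = i
    · subst e; simp [hd, hi]
    · simp [hd, e]

variable [Fintype κ] [Fintype ι]

/-- A proper closed set misses a fraction `2 ^ (-|κ|)` of the blocks. -/
theorem density {A : Set (Blk κ ι)} (hA : Cl hd pr A) {v : Blk κ ι} (hv : v ∉ A) :
    Fintype.card (Blk κ ι) ≤ 2 ^ Fintype.card κ * #(univ.filter fun x => x ∉ A) := by
  choose s hs using fun r => exists_mix hA hv r univ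
  have e : 2 ^ Fintype.card κ = #(univ : Finset (κ → Bool)) := by simp
  rw [e, ← card_product, ← card_univ]
  refine card_le_card_of_injOn
    (fun r => (s r, fun i => bif s r i then v i - r i else r i)) (fun r _ => ?_) ?_
  · simpa using hs r
  · intro r _ r' _ h
    simp only [Prod.mk.injEq] at h
    funext i
    have h1 := congrFun h.2 i
    rw [← h.1] at h1
    cases h2 : s r i
    · simpa [h2] using h1
    · simpa [h2] using h1

/-- The multilinear form with the given coefficients. -/
noncomputable def form (c : (κ → ι) → Bool) (x : Blk κ ι) : Bool := ∑ e, c e * ∏ i, x i (e i)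

theorem form_update (c : (κ → ι) → Bool) (h : Blk κ ι) (i : κ) (a : ι → Bool) :
    form c (update h i a) = ∑ e, c e * (a (e i) * ∏ j ∈ univ.erase i, h j (e j)) := by
  refine sum_congr rfl fun e _ => congrArg _ ?_
  rw [← mul_prod_erase _ _ (mem_univ i), update_self]
  exact congrArg _ (prod_congr rfl fun j hj => by rw [update_of_ne (ne_of_mem_erase hj)])

theorem lin_form (c : (κ → ι) → Bool) : Lin hd pr (form c) := fun ρ => by
  simp only [hd, pr, form_update, ← sum_add_distrib, cond_true, cond_false, Pi.add_apply]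
  exact sum_congr rfl fun e _ => by ring

theorem form_injective : Injective (form : ((κ → ι) → Bool) → Blk κ ι → Bool) := by
  have h : ∀ (c : (κ → ι) → Bool) (e : κ → ι), form c (fun i => Pi.single (e i) 1) = c e := by
    intro c e
    rw [form, sum_eq_single e]
    · simp
    · intro e' _ h
      obtain ⟨i, hi⟩ := Function.ne_iff.1 h
      rw [prod_eq_zero (mem_univ i) (Pi.single_eq_of_ne hi _), mul_zero]
    · simp
  exact fun c c' e => funext fun x => by rw [← h c, ← h c', e]

theorem core_tensor {k : ℕ} {W : Type} [Fintype W]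
    {φ : W → (Cell (Blk κ ι) (Rul κ ι) ι → Bool) → Prop} (hφ : ∀ w, Narrow k (φ w))
    (h : ∀ t, Fn hd pr t ↔ ∃ w, φ w t) :
    (2 ^ Fintype.card ι) ^ Fintype.card ι ^ Fintype.card κ ≤
      Fintype.card W * k ^ Fintype.card ι ^ Fintype.card κ := by
  have := core (m := Fintype.card ι ^ Fintype.card κ) (S := univ.map ⟨_, form_injective⟩)
    (fun T hT => by obtain ⟨c, -, rfl⟩ := mem_map.1 hT; exact lin_form c) (by simp) hφ h
  simpa using this

end Pool.Agent.Lib.MP_cb4cf2_lc
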