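import Pool.Agent.Lib.MP_cb4cf2_lc.Mach
import Pool.Agent.Lib.MP_cb4cf2_lc.Tensor

/-! The verifier: definitions and polynomial time. -/

namespace Pool.Agent.Lib.MP_cb4cf2_lc

open Pool.Agent.Lib.helper82 Pool.Agent.Lib.MP_dec383_lc Classical

abbrev Key := Str × Bool × List Str × Str × ℕ × Str × Str × Bool × ℕ

/-- The query for a presence bit. -/
def k1 (x : Str) (j : List Str) (μ : Str) : Str :=
  enc ((x, false, j, μ, 0, [], [], false, 0) : Key)

/-- The query for a bit of a share. -/
def k2 (x : Str) (h : List Str) (i : ℕ) (a b : Str) (c : Bool) (μ : Str) (t : ℕ) : Str :=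
  enc ((x, true, h, μ, i, a, b, c, t) : Key)

def setL (h : List Str) (i : ℕ) (a : Str) : List Str :=
  (List.range h.length).map fun j => if j = i then a else h.getD j []

def zx (a b : Str) : Str := (List.range a.length).map fun t => xor (a.getD t false) (b.getD t false)

def blkL (r : Str) (n d a : ℕ) : List Str :=
  (List.range d).map fun i => (List.range n).map fun t => r.getD (t + n * (i + d * a)) false

/-- Messages of the prover: mode, coordinate, block, list of strings. -/
abbrev Msg := Bool × ℕ × List Str × List Str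

def okM (x : Str) (m : Msg) : Bool :=
  (m.2.2.2.all fun s => decide (s.length = x.length)) &&
    bif m.1 then decide (m.2.2.2.length = 6) && (decide (m.2.2.1.length = x.length.size) &&
      ((m.2.2.1.all fun s => decide (s.length = x.length)) && decide (m.2.1 < x.length.size)))
    else decide (m.2.2.2.length = 4 * x.length + 4)

def reqV (x : Str) (h : List Str) (i : ℕ) (a b μ ν σ τ : Str) : List (Str × Bool) :=
  (k1 x (setL h i a) μ, true) :: (k1 x (setL h i b) ν, true) ::
    (k1 x (setL h i (zx a b)) (zx σ τ), false) ::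
    (((List.range x.length).map fun t => (k2 x h i a b false μ t, σ.getD t false)) ++
      (List.range x.length).map fun t => (k2 x h i a b true ν t, τ.getD t false))

def reqA (x r : Str) (l : List Str) : List (Str × Bool) :=
  (List.range (4 * x.length + 4)).map fun a =>
    (k1 x (blkL r x.length x.length.size a) (l.getD a []), true)

def reqM (x r : Str) (m : Msg) : List (Str × Bool) :=
  bif m.1 then reqV x m.2.2.1 m.2.1 (m.2.2.2.getD 0 []) (m.2.2.2.getD 1 []) (m.2.2.2.getD 2 [])
    (m.2.2.2.getD 3 []) (m.2.2.2.getD 4 []) (m.2.2.2.getD 5 []) else reqA x r m.2.2.2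

section

variable {α : Type} [Enc α]

theorem pt_k1 {x μ : α → Str} {j : α → List Str} (hx : PT x) (hj : PT j) (hμ : PT μ) :
    PT fun s => k1 (x s) (j s) (μ s) :=
  PT.comp (G := fun k : Key => (enc k : List Bool)) PT.encList
    (PT.pair hx (PT.pair (PT.const _) (PT.pair hj (PT.pair hμ (PT.const _)))))

theorem pt_k2 {x a b μ : α → Str} {h : α → List Str} {i t : α → ℕ} (c : Bool) (hx : PT x)
    (hh : PT h) (hi : PT i) (ha : PT a) (hb : PT b) (hμ : PT μ) (ht : PT t) :
    PT fun s => k2 (x s) (h s) (i s) (a s) (b s) c (μ s) (t s) :=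
  PT.comp (G := fun k : Key => (enc k : List Bool)) PT.encList
    (PT.pair hx (PT.pair (PT.const _) (PT.pair hh (PT.pair hμ (PT.pair hi (PT.pair ha
      (PT.pair hb (PT.pair (PT.const _) ht))))))))

theorem pt_setL {h : α → List Str} {i : α → ℕ} {a : α → Str} (hh : PT h) (hi : PT i)
    (ha : PT a) : PT fun s => setL (h s) (i s) (a s) :=
  PT.map (F := fun s j => if j = i s then a s else (h s).getD j []) (PT.range hh)
    (PT.iteEq PT.snd' (PT.comp hi PT.fst') (PT.comp ha PT.fst')
      (ptGetD (PT.comp hh PT.fst') PT.snd' _))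

theorem pt_xor {a b : α → Bool} (ha : PT a) (hb : PT b) : PT fun s => xor (a s) (b s) :=
  (PT.cond ha (PT.not hb) hb).congr fun s => by cases a s <;> simp

theorem pt_zx {a b : α → Str} (ha : PT a) (hb : PT b) : PT fun s => zx (a s) (b s) :=
  PT.map (F := fun s t => xor ((a s).getD t false) ((b s).getD t false)) (PT.range ha)
    (pt_xor (ptGetD (PT.comp ha PT.fst') PT.snd' _) (ptGetD (PT.comp hb PT.fst') PT.snd' _))

theorem pt_blkL {r : α → Str} {n d a : α → ℕ} (hr : PT r) (hn : UN n) (hd : UN d) (ha : PT a) :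
    PT fun s => blkL (r s) (n s) (d s) (a s) :=
  PT.map (F := fun s i => (List.range (n s)).map fun t =>
      (r s).getD (t + n s * (i + d s * a s)) false) hd.range
    (PT.map (F := fun (p : α × ℕ) t => (r p.1).getD (t + n p.1 * (p.2 + d p.1 * a p.1)) false)
      (hn.comp PT.fst').range
      (ptGetD (PT.comp hr (PT.fst PT.fst')) (PT.add PT.snd'
        (PT.mul (PT.comp hn.pt (PT.fst PT.fst')) (PT.add (PT.snd PT.fst')
          (PT.mul (PT.comp hd.pt (PT.fst PT.fst')) (PT.comp ha (PT.fst PT.fst')))))) _))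

theorem un_size {n : α → ℕ} (hn : PT n) : UN fun s => (n s).size :=
  (UN.length (PT.bits hn)).congr fun _ => Nat.size_eq_bits_len _

theorem pt_allLen {l : α → List Str} {x : α → Str} (hl : PT l) (hx : PT x) :
    PT fun s => (l s).all fun u => decide (u.length = (x s).length) :=
  PT.all (P := fun s (u : Str) => decide (u.length = (x s).length)) hl
    (PT.eq (PT.length PT.snd') (PT.length (PT.comp hx PT.fst')))

theorem pt_okM {x : α → Str} {m : α → Msg} (hx : PT x) (hm : PT m) :
    PT fun s => okM (x s) (m s) :=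
  have h1 := PT.snd (PT.snd (PT.snd hm))
  have h2 := PT.fst (PT.snd (PT.snd hm))
  have h3 := (un_size (PT.length hx)).pt
  PT.and (pt_allLen h1 hx) (PT.cond (PT.fst hm)
    (PT.and (PT.eq (PT.length h1) (PT.const 6)) (PT.and (PT.eq (PT.length h2) h3)
      (PT.and (pt_allLen h2 hx) (PT.lt (PT.fst (PT.snd hm)) h3))))
    (PT.eq (PT.length h1) (PT.add (PT.mul (PT.const 4) (PT.length hx)) (PT.const 4))))

theorem pt_reqV {x a b μ ν σ τ : α → Str} {h : α → List Str} {i : α → ℕ} (hx : PT x)
    (hh : PT h) (hi : PT i) (ha : PT a) (hb : PT b) (hμ : PT μ) (hν : PT ν) (hσ : PT σ)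
    (hτ : PT τ) : PT fun s => reqV (x s) (h s) (i s) (a s) (b s) (μ s) (ν s) (σ s) (τ s) :=
  have k : ∀ (c : Bool) {u w : α → Str}, PT u → PT w → PT fun s => (List.range (x s).length).map
      fun t => (k2 (x s) (h s) (i s) (a s) (b s) c (u s) t, (w s).getD t false) :=
    fun c u w hu hw => PT.map
      (F := fun s t => (k2 (x s) (h s) (i s) (a s) (b s) c (u s) t, (w s).getD t false))
      (PT.range hx) (PT.pair (pt_k2 c (PT.comp hx PT.fst') (PT.comp hh PT.fst')
        (PT.comp hi PT.fst') (PT.comp ha PT.fst') (PT.comp hb PT.fst') (PT.comp hu PT.fst')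
        PT.snd') (ptGetD (PT.comp hw PT.fst') PT.snd' _))
  PT.cons (PT.pair (pt_k1 hx (pt_setL hh hi ha) hμ) (PT.const _))
    (PT.cons (PT.pair (pt_k1 hx (pt_setL hh hi hb) hν) (PT.const _))
      (PT.cons (PT.pair (pt_k1 hx (pt_setL hh hi (pt_zx ha hb)) (pt_zx hσ hτ)) (PT.const _))
        (PT.append (k false hμ hσ) (k true hν hτ))))

theorem pt_reqA {x r : α → Str} {l : α → List Str} (hx : PT x) (hr : PT r) (hl : PT l) :
    PT fun s => reqA (x s) (r s) (l s) :=
  PT.map (F := fun s a =>
      (k1 (x s) (blkL (r s) (x s).length (x s).length.size a) ((l s).getD a []), true))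
    (((UN.const 4).mul (UN.length hx)).add (UN.const 4)).range
    (PT.pair (pt_k1 (PT.comp hx PT.fst') (pt_blkL (PT.comp hr PT.fst')
      (UN.length (PT.comp hx PT.fst')) (un_size (PT.length (PT.comp hx PT.fst'))) PT.snd')
      (ptGetD (PT.comp hl PT.fst') PT.snd' _)) (PT.const _))

theorem pt_reqM {x r : α → Str} {m : α → Msg} (hx : PT x) (hr : PT r) (hm : PT m) :
    PT fun s => reqM (x s) (r s) (m s) :=
  have h1 := PT.snd (PT.snd (PT.snd hm))
  PT.cond (PT.fst hm) (pt_reqV hx (PT.fst (PT.snd (PT.snd hm))) (PT.fst (PT.snd hm))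
    (PT.getD_const _ 0 h1) (PT.getD_const _ 1 h1) (PT.getD_const _ 2 h1) (PT.getD_const _ 3 h1)
    (PT.getD_const _ 4 h1) (PT.getD_const _ 5 h1)) (pt_reqA hx hr h1)

end

/-- The verifier reads a message from the padded string of the prover and checks it. -/
theorem exists_verifier : ∃ (V : OM) (msg : Str → Msg),
    (∀ (m : Msg) (w : Str), msg (N487b59b3.delimit (enc m) ++ w) = m) ∧ ∀ A x r y,
      V.Acc A x r y ↔ okM x (msg y) = true ∧ ∀ q ∈ reqM x r (msg y), A q.1 = q.2 := by
  obtain ⟨p, hp, ep⟩ : Prs Msg :=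
    Prs.bool.prod (Prs.nat.prod (Prs.bool.list.list.prod Prs.bool.list.list))
  have h1 : PT fun u : Inp => p (ufst u.2.2) := PT.comp hp (PT.ufstL (PT.snd PT.snd'))
  obtain ⟨V, hV⟩ := exists_checker (pt_okM PT.fst' h1) (pt_reqM PT.fst' (PT.fst PT.snd') h1)
  exact ⟨V, fun y => p (ufst y), fun m w => by beta_reduce; rw [ufst_delimit, ep], hV⟩

end Pool.Agent.Lib.MP_cb4cf2_lc
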